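import Mathlib

/-!
# Statements for the Weil positivity project (RH, supports of length log 3)
-/

open Complex MeasureTheory Set

namespace Pool.Agent.W187.WP

/-- the nontrivial zeros of the Riemann zeta function -/
def Zr : Set ℂ := {s | riemannZeta s = 0 ∧ 0 < s.re ∧ s.re < 1}

/-- the multiplicity of a zero of zeta -/
noncomputable def mult (s : ℂ) : ℕ := analyticOrderNatAt riemannZeta s

/-- two-sided Laplace transform -/
noncomputable def lap (g : ℝ → ℂ) (z : ℂ) : ℂ := ∫ u : ℝ, g u * cexp (z * u)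

/-- the right hand side of the explicit formula -/
noncomputable def WW (g : ℝ → ℂ) : ℂ :=
  (∫ v in Ioi (0 : ℝ), (g v + g (-v)) * ((Real.exp (v / 2) : ℝ) : ℂ))
  - (∑' n : ℕ, ((ArithmeticFunction.vonMangoldt n / Real.sqrt n : ℝ) : ℂ) *
      (g (Real.log n) + g (-Real.log n)))
  - ((Real.eulerMascheroniConstant + Real.log Real.pi : ℝ) : ℂ) * g 0
  + ∑' n : ℕ, (g 0 / ((n : ℂ) + 1) - ∫ v in Ioi (0 : ℝ), (g v + g (-v)) *
      ((Real.exp (-(2 * ((n : ℝ) + 1) + 1 / 2) * v) : ℝ) : ℂ))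

/-- the explicit formula (Riemann, Weil) for twice continuously differentiable test functions with
compact support -/
def S_EF : Prop := ∀ g : ℝ → ℂ, ContDiff ℝ 2 g → HasCompactSupport g →
  HasSum (fun ρ : Zr => (mult ρ : ℂ) * lap g ((ρ : ℂ) - 1 / 2)) (WW g)

/-- `Re s = 3/2` integrand: logarithmic derivative of the completed zeta function times `s (s-1)` -/
noncomputable def LL (s : ℂ) : ℂ :=
  1 / s + 1 / (s - 1) - Real.log Real.pi / 2 + logDeriv Gamma (s / 2) / 2 +
    deriv riemannZeta s / riemannZeta s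

/-- first half of `S_EF`: the sum over the zeros as an integral over `Re s = 3/2` -/
def S_EF1 : Prop := ∀ g : ℝ → ℂ, ContDiff ℝ 2 g → HasCompactSupport g →
  HasSum (fun ρ : Zr => (mult ρ : ℂ) * lap g ((ρ : ℂ) - 1 / 2))
    ((1 / (2 * Real.pi) : ℝ) * ∫ v : ℝ, LL (3 / 2 + v * I) *
      (lap g (1 + v * I) + lap g (-1 - v * I)))

/-- second half of `S_EF`: evaluation of the integral over `Re s = 3/2` -/
def S_EF2 : Prop := ∀ g : ℝ → ℂ, ContDiff ℝ 2 g → HasCompactSupport g →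
  ((1 / (2 * Real.pi) : ℝ) : ℂ) * ∫ v : ℝ, LL (3 / 2 + v * I) *
      (lap g (1 + v * I) + lap g (-1 - v * I)) = WW g

/-- the logarithmic energy on `[-1, 1]` -/
noncomputable def EE (w : ℝ → ℝ) : ℝ :=
  ∫ x in (-1 : ℝ)..1, ∫ y in x..1, (w y - w x) ^ 2 / (y - x)

/-- the operator `v ↦ ∫ (v x - v y) / |x - y| dy` on the monomial `x ^ n` -/
noncomputable def TT (n : ℕ) (x : ℝ) : ℝ :=
  2 * (∑ i ∈ Finset.range n, (1 : ℝ) / (i + 1)) * x ^ n -
    ∑ j ∈ Finset.range n, if Even (n - j) then 2 / ((n : ℝ) - j) * x ^ j else 0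

/-- polarised energy against a monomial -/
def S_TX : Prop := ∀ n : ℕ, ∀ w : ℝ → ℝ, ContDiff ℝ 1 w →
  ∫ x in (-1 : ℝ)..1, (∫ y in x..1, (y ^ n - x ^ n) * (w y - w x) / (y - x)) =
    ∫ x in (-1 : ℝ)..1, w x * TT n x

/-- lower bound of the energy for functions orthogonal to the polynomials of degree `≤ K` -/
def S_TK : Prop := ∀ K : ℕ, ∀ w : ℝ → ℝ, ContDiff ℝ 1 w →
  (∀ k ≤ K, ∫ x in (-1 : ℝ)..1, w x * x ^ k = 0) →
  (∑ i ∈ Finset.range (K + 1), (1 : ℝ) / (i + 1)) * (∫ x in (-1 : ℝ)..1, w x ^ 2) ≤ 1 / 2 * EE w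

/-- upper bound of Euler's constant -/
def S_GA : Prop := Real.eulerMascheroniConstant ≤ 0.57721566495

/-- Taylor coefficients of `exp (y/2) / sinh y - 1 / y` at `0` -/
def bco : List ℚ := [1/2, -1/24, -1/16, 7/5760, 5/768, -31/967680, -61/92160, 127/154828800,
  277/4128768, -73/3503554560, -50521/7431782400, 1414477/2678117105664000, 540553/784796221440,
  -8191/612141052723200, -199360981/2856658246041600, 16931177/49950709902213120000,
  3878302429/548478383239987200, -5749691557/669659197233029971968000,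
  -2404879675441/3356687705428721664000, 91546277357/420928638260761696665600000,
  14814847529501/204086612490066277171200]

/-- polynomial approximation of the archimedean kernel -/
def S_KB : Prop := ∀ y : ℝ, 0 < y → y ≤ 1.11 →
  |Real.exp (y / 2) / Real.sinh y - 1 / y - ∑ j ∈ Finset.range 21, ((bco.getD j 0 : ℚ) : ℝ) * y ^ j|
    ≤ 1 / 10 ^ 10

/-- the archimedean terms of the explicit formula as an integral over `[0, L]` -/
def S_AR : Prop := ∀ (g : ℝ → ℝ) (L : ℝ), 0 < L → ContDiff ℝ 1 g → (∀ v, L ≤ v → g v = 0) →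
  (∑' n : ℕ, (g 0 / ((n : ℝ) + 1) - 2 * ∫ v in Ioi (0 : ℝ), g v *
      Real.exp (-(2 * ((n : ℝ) + 1) + 1 / 2) * v)))
    - 2 * (∫ v in Ioi (0 : ℝ), g v * Real.exp (-(v / 2)))
    = -Real.log (2 * L) * g 0 +
      ∫ v in (0 : ℝ)..L, (g 0 / v - Real.exp (v / 2) / Real.sinh v * g v)

end Pool.Agent.W187.WP
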