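import Pool.Agent.W45.WP.Dig
import Pool.Agent.W45.WP.Four
import Pool.Agent.W187.WP.Stmts

/-!
WP-EF2: evaluation of the line integral in the Riemann-Weil explicit formula.
-/

open Complex Filter Topology Set MeasureTheory FourierTransform ArithmeticFunction


namespace Pool.Agent.W187.WP.EFb
open Pool.Agent.W45.WP

open Pool.Agent.W187.WP

/-! ### the test function -/

/-- `φ(u) = (g(u) + g(-u)) exp(u)` -/
noncomputable def ph (g : ℝ → ℂ) (u : ℝ) : ℂ := (g u + g (-u)) * cexp u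

theorem ph_contDiff {g : ℝ → ℂ} (hg : ContDiff ℝ 2 g) : ContDiff ℝ 2 (ph g) := by
  unfold ph
  have h1 : ContDiff ℝ 2 (fun u : ℝ => g (-u)) := hg.comp contDiff_neg
  have h2 : ContDiff ℝ 2 (fun u : ℝ => cexp (u : ℂ)) :=
    (Complex.ofRealCLM.contDiff).cexp
  exact (hg.add h1).mul h2

theorem ph_compact {g : ℝ → ℂ} (hc : HasCompactSupport g) : HasCompactSupport (ph g) := by
  unfold ph
  have h1 : HasCompactSupport (fun u : ℝ => g (-u)) := hc.comp_homeomorph (Homeomorph.neg ℝ)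
  exact (hc.add h1).mul_right

theorem lap_sum {g : ℝ → ℂ} (hg : ContDiff ℝ 2 g) (hc : HasCompactSupport g) (v : ℝ) :
    lap g (1 + v * I) + lap g (-1 - v * I) = HH (ph g) v := by
  unfold lap HH ph
  have h1 : ∫ u : ℝ, g u * cexp ((-1 - v * I) * u) = ∫ u : ℝ, g (-u) * cexp ((1 + v * I) * u) := by
    rw [← integral_neg_eq_self (fun u : ℝ => g (-u) * cexp ((1 + v * I) * u))]
    congr 1
    funext u
    simp only [neg_neg]
    congr 2
    push_cast
    ring
  have hc' : HasCompactSupport (fun u : ℝ => g (-u)) := hc.comp_homeomorph (Homeomorph.neg ℝ)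
  have hgc := hg.continuous
  have i1 : Integrable (fun u : ℝ => g u * cexp ((1 + v * I) * u)) :=
    Continuous.integrable_of_hasCompactSupport (by fun_prop) hc.mul_right
  have i2 : Integrable (fun u : ℝ => g (-u) * cexp ((1 + v * I) * u)) :=
    Continuous.integrable_of_hasCompactSupport (by fun_prop) hc'.mul_right
  rw [h1, ← integral_add i1 i2]
  congr 1
  funext u
  rw [← add_mul, mul_assoc, ← Complex.exp_add]
  congr 2
  ring

/-! ### the digamma terms -/

/-- digamma terms -/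
noncomputable def Cn (n : ℕ) (v : ℝ) : ℂ := 1 / (2 * ((n : ℂ) + 1)) - 1 / (sp v + 2 * ((n : ℂ) + 1))

theorem Cn_eq_dg (n : ℕ) (v : ℝ) : Cn n v = dg n (sp v / 2) / 2 := by
  unfold Cn dg
  have h1 : ((n : ℂ) + 1) ≠ 0 := by exact_mod_cast Nat.succ_ne_zero n
  have hn : (0 : ℝ) ≤ n := Nat.cast_nonneg n
  have h2 : sp v + 2 * ((n : ℂ) + 1) ≠ 0 := by
    intro h
    have := congrArg re h
    simp only [add_re, sp_re, mul_re, re_ofNat, natCast_re, one_re, im_ofNat, zero_mul, sub_zero,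
      zero_re] at this
    linarith
  have h3 : sp v / 2 + ((n : ℂ) + 1) ≠ 0 := by
    intro h
    apply h2
    linear_combination 2 * h
  field_simp

theorem Cn_eq (n : ℕ) (v : ℝ) : Cn n v = sp v / (2 * ((n : ℂ) + 1) * (sp v + 2 * ((n : ℂ) + 1))) := by
  unfold Cn
  have h1 : ((n : ℂ) + 1) ≠ 0 := by exact_mod_cast Nat.succ_ne_zero n
  have hn : (0 : ℝ) ≤ n := Nat.cast_nonneg n
  have h2 : sp v + 2 * ((n : ℂ) + 1) ≠ 0 := by
    intro h
    have := congrArg re h
    simp only [add_re, sp_re, mul_re, re_ofNat, natCast_re, one_re, im_ofNat, zero_mul, sub_zero,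
      zero_re] at this
    linarith
  field_simp
  ring

theorem norm_sq_sp (v : ℝ) : ‖sp v‖ ^ 2 = 9 / 4 + v ^ 2 := by
  rw [← Complex.normSq_eq_norm_sq, Complex.normSq_apply]
  simp [sp]
  ring

theorem norm_sq_sp_add (v : ℝ) (n : ℕ) :
    ‖sp v + 2 * ((n : ℂ) + 1)‖ ^ 2 = (3 / 2 + 2 * ((n : ℝ) + 1)) ^ 2 + v ^ 2 := by
  rw [← Complex.normSq_eq_norm_sq, Complex.normSq_apply]
  simp [sp]
  ring

theorem norm_Cn_pow (n : ℕ) (v : ℝ) : ‖Cn n v‖ ^ 4 ≤ (1 + v ^ 2) * (((n : ℝ) + 1) ^ 6)⁻¹ := by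
  have hn : (0 : ℝ) ≤ n := Nat.cast_nonneg n
  rw [Cn_eq, norm_div, norm_mul, norm_mul]
  have h1 : ‖((n : ℂ) + 1)‖ = (n : ℝ) + 1 := by
    have : ((n : ℂ) + 1) = ((n + 1 : ℝ) : ℂ) := by push_cast; ring
    rw [this, Complex.norm_real, Real.norm_eq_abs, abs_of_nonneg (by positivity)]
  rw [h1, Complex.norm_ofNat]
  set N : ℝ := (n : ℝ) + 1 with hN
  have hN1 : 1 ≤ N := by rw [hN]; linarith
  have hA := norm_sq_sp v
  have hB := norm_sq_sp_add v n
  rw [← hN] at hB
  set x := ‖sp v‖ with hx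
  set y := ‖sp v + 2 * ((n : ℂ) + 1)‖ with hy
  have hy0 : 0 ≤ y := norm_nonneg _
  have hypos : 0 < y ^ 2 := by rw [hB]; positivity
  have hB2 : 16 * N ^ 2 * x ^ 2 ≤ (y ^ 2) ^ 2 := by
    have h2 : x ^ 2 + 4 * N ^ 2 ≤ y ^ 2 := by
      rw [hA, hB]; nlinarith
    have h3 : (x ^ 2 + 4 * N ^ 2) ^ 2 ≤ (y ^ 2) ^ 2 := pow_le_pow_left₀ (by positivity) h2 2
    nlinarith [sq_nonneg (x ^ 2 - 4 * N ^ 2)]
  rw [div_pow, div_le_iff₀ (by
    have : 0 < y := by
      rcases hy0.lt_or_eq with h | h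
      · exact h
      · rw [← h] at hypos; simp at hypos
    positivity)]
  have e1 : (2 * N * y) ^ 4 = 16 * N ^ 4 * (y ^ 2) ^ 2 := by ring
  rw [e1]
  have e2 : x ^ 4 = (x ^ 2) ^ 2 := by ring
  have hx2 : x ^ 2 ≤ 9 / 4 * (1 + v ^ 2) := by rw [hA]; nlinarith [sq_nonneg v]
  have hx0 : 0 < x ^ 2 := by rw [hA]; positivity
  rw [e2]
  calc (x ^ 2) ^ 2 = x ^ 2 * x ^ 2 := by ring
    _ ≤ (9 / 4 * (1 + v ^ 2)) * x ^ 2 := by gcongr
    _ ≤ (1 + v ^ 2) * (16 * (16 * x ^ 2)) := by nlinarith [sq_nonneg v, mul_pos (show (0:ℝ) < 1 + v ^ 2 by positivity) hx0]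
    _ = (1 + v ^ 2) * (N ^ 6)⁻¹ * (16 * N ^ 4 * (16 * N ^ 2 * x ^ 2)) := by
        field_simp
    _ ≤ (1 + v ^ 2) * (N ^ 6)⁻¹ * (16 * N ^ 4 * (y ^ 2) ^ 2) := by gcongr

theorem norm_Cn_le (n : ℕ) (v : ℝ) :
    ‖Cn n v‖ ≤ (1 + v ^ 2) ^ (1 / 4 : ℝ) * ((n : ℝ) + 1) ^ (-(3 / 2) : ℝ) := by
  have h := norm_Cn_pow n v
  have hn : (0 : ℝ) ≤ n := Nat.cast_nonneg n
  refine le_of_pow_le_pow_left₀ (n := 4) (by norm_num) (by positivity) (h.trans (le_of_eq ?_))
  have e1 : ((1 + v ^ 2) ^ (1 / 4 : ℝ)) ^ 4 = 1 + v ^ 2 := by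
    rw [← Real.rpow_natCast ((1 + v ^ 2) ^ (1 / 4 : ℝ)) 4, ← Real.rpow_mul (by positivity)]
    norm_num
  have e2 : (((n : ℝ) + 1) ^ (-(3 / 2) : ℝ)) ^ 4 = (((n : ℝ) + 1) ^ 6)⁻¹ := by
    rw [← Real.rpow_natCast (((n : ℝ) + 1) ^ (-(3 / 2) : ℝ)) 4, ← Real.rpow_mul (by positivity),
      ← Real.rpow_natCast ((n : ℝ) + 1) 6, ← Real.rpow_neg (by positivity)]
    norm_num
  rw [mul_pow, e1, e2]

theorem continuous_Cn (n : ℕ) : Continuous (Cn n) := by
  unfold Cn
  have hn : (0 : ℝ) ≤ n := Nat.cast_nonneg n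
  have h2 : ∀ v : ℝ, sp v + 2 * ((n : ℂ) + 1) ≠ 0 := by
    intro v h
    have := congrArg re h
    simp only [add_re, sp_re, mul_re, re_ofNat, natCast_re, one_re, im_ofNat, zero_mul, sub_zero,
      zero_re] at this
    linarith
  have h3 : Continuous fun v : ℝ => sp v + 2 * ((n : ℂ) + 1) := by unfold sp; fun_prop
  exact continuous_const.sub (continuous_const.div h3 h2)

/-! ### the terms of the Dirichlet series -/

/-- terms of the Dirichlet series of the von Mangoldt function -/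
noncomputable def Dn (n : ℕ) (v : ℝ) : ℂ := (Λ n : ℂ) * cexp (-(sp v) * (Real.log n : ℂ))

theorem term_eq (n : ℕ) (v : ℝ) : LSeries.term (fun n : ℕ => ((Λ n : ℝ) : ℂ)) (sp v) n = Dn n v := by
  unfold Dn
  rcases Nat.eq_zero_or_pos n with h | h
  · subst h
    simp
  · rw [LSeries.term_of_ne_zero h.ne', div_eq_mul_inv, ← Complex.cpow_neg]
    congr 1
    have hn : (n : ℂ) ≠ 0 := by exact_mod_cast h.ne'
    rw [Complex.cpow_def_of_ne_zero hn, ← Complex.natCast_log, mul_comm]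

theorem norm_Dn (n : ℕ) (v : ℝ) : ‖Dn n v‖ = ‖LSeries.term (fun n : ℕ => ((Λ n : ℝ) : ℂ)) (3 / 2 : ℂ) n‖ := by
  rw [← term_eq, LSeries.norm_term_eq, LSeries.norm_term_eq]
  simp only [sp_re]
  have : ((3 / 2 : ℂ)).re = 3 / 2 := by norm_num
  rw [this]

theorem summable_norm_Dn : Summable fun n : ℕ => ‖LSeries.term (fun n : ℕ => ((Λ n : ℝ) : ℂ)) (3 / 2 : ℂ) n‖ :=
  (LSeriesSummable_vonMangoldt (s := (3 / 2 : ℂ)) (by norm_num)).norm

theorem continuous_Dn (n : ℕ) : Continuous (Dn n) := by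
  unfold Dn sp
  fun_prop

theorem tsum_Dn (v : ℝ) : ∑' n, Dn n v = -(deriv riemannZeta (sp v) / riemannZeta (sp v)) := by
  have h := LSeries_vonMangoldt_eq_deriv_riemannZeta_div (s := sp v) (by rw [sp_re]; norm_num)
  rw [← neg_div, ← h, LSeries]
  exact tsum_congr fun n => (term_eq n v).symm

theorem summable_Dn (v : ℝ) : Summable fun n => Dn n v :=
  Summable.of_norm (by simp_rw [norm_Dn]; exact summable_norm_Dn)

theorem summable_Cn (v : ℝ) : Summable fun n => Cn n v := by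
  have h := (summable_dg (z := sp v / 2) (by
    have : (sp v / 2).re = 3 / 4 := by
      have := sp_re v
      simp [sp]
      norm_num
    rw [this]; norm_num)).div_const 2
  refine h.congr fun n => ?_
  rw [Cn_eq_dg]

theorem LL_eq (v : ℝ) : LL (sp v) = (1 / (sp v - 1) -
    ((Real.log Real.pi + Real.eulerMascheroniConstant : ℝ) : ℂ) / 2) + ∑' n, (Cn n v - Dn n v) := by
  have hre : (0 : ℝ) < (sp v / 2).re := by
    have : (sp v / 2).re = 3 / 4 := by
      simp [sp]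
      norm_num
    rw [this]; norm_num
  have hs : sp v ≠ 0 := by
    intro h
    have := congrArg re h
    rw [sp_re] at this
    norm_num at this
  rw [(summable_Cn v).tsum_sub (summable_Dn v), tsum_Dn]
  have h1 : ∑' n, Cn n v = (∑' n, dg n (sp v / 2)) / 2 := by
    rw [← tsum_div_const]
    exact tsum_congr fun n => Cn_eq_dg n v
  unfold LL
  rw [logDeriv_Gamma_eq hre, h1]
  push_cast
  field_simp
  ring

/-! ### integrals -/

section
variable {φ : ℝ → ℂ}

theorem bound_HC (hφ : ContDiff ℝ 2 φ) (hc : HasCompactSupport φ) :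
    ∃ K : ℝ, 0 ≤ K ∧ ∀ n v, ‖HH φ v * Cn n v‖ ≤
      ((n : ℝ) + 1) ^ (-(3 / 2) : ℝ) * (K * (1 + ‖v‖ ^ 2) ^ (-(3 / 2) / 2 : ℝ)) := by
  obtain ⟨K, hK, h⟩ := HH_bound hφ hc
  refine ⟨K, hK, fun n v => ?_⟩
  rw [norm_mul]
  have h1 := h v
  have h2 := norm_Cn_le n v
  have hn : (0 : ℝ) ≤ n := Nat.cast_nonneg n
  have h3 : (1 + ‖v‖ ^ 2) ^ (-(3 / 2) / 2 : ℝ) = (1 + v ^ 2)⁻¹ * (1 + v ^ 2) ^ (1 / 4 : ℝ) := by
    rw [Real.norm_eq_abs, sq_abs, ← Real.rpow_neg_one, ← Real.rpow_add (by positivity)]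
    norm_num
  rw [h3]
  calc ‖HH φ v‖ * ‖Cn n v‖ ≤ (K * (1 + v ^ 2)⁻¹) *
        ((1 + v ^ 2) ^ (1 / 4 : ℝ) * ((n : ℝ) + 1) ^ (-(3 / 2) : ℝ)) := by
        gcongr
    _ = _ := by ring

theorem int_w : Integrable fun v : ℝ => (1 + ‖v‖ ^ 2) ^ (-(3 / 2) / 2 : ℝ) :=
  integrable_rpow_neg_one_add_norm_sq (by simp; norm_num)

theorem int_HC (hφ : ContDiff ℝ 2 φ) (hc : HasCompactSupport φ) (n : ℕ) :
    Integrable fun v => HH φ v * Cn n v := by
  obtain ⟨K, hK, h⟩ := bound_HC hφ hc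
  exact Integrable.mono' ((int_w.const_mul K).const_mul _)
    ((HH_continuous hφ hc).mul (continuous_Cn n)).aestronglyMeasurable
    (Eventually.of_forall fun v => h n v)

theorem sum_HC (hφ : ContDiff ℝ 2 φ) (hc : HasCompactSupport φ) :
    Summable fun n => ∫ v, ‖HH φ v * Cn n v‖ := by
  obtain ⟨K, hK, h⟩ := bound_HC hφ hc
  have hs : Summable fun n : ℕ => ((n : ℝ) + 1) ^ (-(3 / 2) : ℝ) *
      ∫ v : ℝ, K * (1 + ‖v‖ ^ 2) ^ (-(3 / 2) / 2 : ℝ) := by
    refine Summable.mul_right _ ?_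
    have := (summable_nat_add_iff 1).2 (Real.summable_nat_rpow.2 (show (-(3 / 2) : ℝ) < -1 by norm_num))
    refine this.congr fun n => ?_
    push_cast
    rfl
  refine Summable.of_nonneg_of_le (fun n => integral_nonneg fun v => norm_nonneg _) (fun n => ?_) hs
  rw [← integral_const_mul]
  exact integral_mono (int_HC hφ hc n).norm ((int_w.const_mul K).const_mul _) fun v => h n v

theorem int_HD (hφ : ContDiff ℝ 2 φ) (hc : HasCompactSupport φ) (n : ℕ) :
    Integrable fun v => HH φ v * Dn n v := by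
  refine Integrable.mono' ((HH_integrable hφ hc).norm.mul_const ‖LSeries.term (fun n : ℕ => ((Λ n : ℝ) : ℂ)) (3 / 2 : ℂ) n‖)
    ((HH_continuous hφ hc).mul (continuous_Dn n)).aestronglyMeasurable
    (Eventually.of_forall fun v => ?_)
  rw [norm_mul, norm_Dn]

theorem sum_HD (hφ : ContDiff ℝ 2 φ) (hc : HasCompactSupport φ) :
    Summable fun n => ∫ v, ‖HH φ v * Dn n v‖ := by
  have : (fun n => ∫ v, ‖HH φ v * Dn n v‖) =
      fun n => (∫ v, ‖HH φ v‖) * ‖LSeries.term (fun n : ℕ => ((Λ n : ℝ) : ℂ)) (3 / 2 : ℂ) n‖ := by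
    funext n
    rw [← integral_mul_const]
    congr 1
    funext v
    rw [norm_mul, norm_Dn]
  rw [this]
  exact summable_norm_Dn.mul_left _

theorem int_H1 (hφ : ContDiff ℝ 2 φ) (hc : HasCompactSupport φ) (B : ℂ) :
    Integrable fun v => HH φ v * (1 / (sp v - 1) - B) := by
  have hne : ∀ v : ℝ, sp v - 1 ≠ 0 := by
    intro v h
    have := congrArg re h
    rw [sub_re, sp_re] at this
    norm_num at this
  have hsp : Continuous fun v : ℝ => sp v - 1 := by unfold sp; fun_prop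
  refine Integrable.mono' ((HH_integrable hφ hc).norm.mul_const (2 + ‖B‖))
    ((HH_continuous hφ hc).mul ((continuous_const.div hsp hne).sub
      continuous_const)).aestronglyMeasurable (Eventually.of_forall fun v => ?_)
  rw [norm_mul]
  apply mul_le_mul_of_nonneg_left _ (norm_nonneg _)
  refine (norm_sub_le _ _).trans ?_
  have h1 : (1 / 2 : ℝ) ≤ ‖sp v - 1‖ := by
    refine le_trans ?_ (re_le_norm _)
    rw [sub_re, sp_re]
    norm_num
  have h2 : ‖1 / (sp v - 1)‖ ≤ 2 := by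
    rw [norm_div, norm_one]
    calc 1 / ‖sp v - 1‖ ≤ 1 / (1 / 2) := one_div_le_one_div_of_le (by norm_num) h1
      _ = 2 := by norm_num
  linarith

/-- the value of the line integral, for general `φ` -/
theorem line_eq (hφ : ContDiff ℝ 2 φ) (hc : HasCompactSupport φ) :
    ((1 / (2 * Real.pi) : ℝ) : ℂ) * ∫ v : ℝ, HH φ v * LL (sp v) =
      ((∫ l in Ioi (0 : ℝ), φ l * cexp ((1 - 3 / 2) * l)) -
        ((Real.log Real.pi + Real.eulerMascheroniConstant : ℝ) : ℂ) / 2 * φ 0) +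
      (∑' n : ℕ, (φ 0 / (2 * ((n : ℂ) + 1)) -
        ∫ l in Ioi (0 : ℝ), φ l * cexp ((-(2 * ((n : ℂ) + 1)) - 3 / 2) * l))) -
      ∑' n : ℕ, (Λ n : ℂ) * cexp (-(3 / 2) * (Real.log n : ℂ)) * φ (Real.log n) := by
  classical
  set B : ℂ := ((Real.log Real.pi + Real.eulerMascheroniConstant : ℝ) : ℂ) / 2 with hB
  set P : ℂ := ((1 / (2 * Real.pi) : ℝ) : ℂ) with hP
  -- the values of the single integrals
  have vC : ∀ n : ℕ, P * ∫ v : ℝ, HH φ v * Cn n v = φ 0 / (2 * ((n : ℂ) + 1)) -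
      ∫ l in Ioi (0 : ℝ), φ l * cexp ((-(2 * ((n : ℂ) + 1)) - 3 / 2) * l) := by
    intro n
    have hn : (0 : ℝ) ≤ n := Nat.cast_nonneg n
    have hz : (-(2 * ((n : ℂ) + 1))).re < 3 / 2 := by
      simp only [neg_re, mul_re, re_ofNat, add_re, natCast_re, one_re, im_ofNat, zero_mul, sub_zero]
      linarith
    rw [← resolvent hφ hc hz, ← inversion0 hφ hc, ← hP]
    have e1 : (fun v : ℝ => HH φ v * Cn n v) = fun v : ℝ => HH φ v * (1 / (2 * ((n : ℂ) + 1))) -
        HH φ v * (1 / (sp v - -(2 * ((n : ℂ) + 1)))) := by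
      funext v
      unfold Cn
      rw [sub_neg_eq_add, mul_sub]
    have i1 : Integrable fun v : ℝ => HH φ v * (1 / (2 * ((n : ℂ) + 1))) :=
      (HH_integrable hφ hc).mul_const _
    have i2 : Integrable fun v : ℝ => HH φ v * (1 / (sp v - -(2 * ((n : ℂ) + 1)))) := by
      have := i1.sub (int_HC hφ hc n)
      refine this.congr (Eventually.of_forall fun v => ?_)
      show HH φ v * (1 / (2 * ((n : ℂ) + 1))) - HH φ v * Cn n v =
        HH φ v * (1 / (sp v - -(2 * ((n : ℂ) + 1))))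
      unfold Cn
      rw [sub_neg_eq_add]
      ring
    rw [e1, integral_sub i1 i2, integral_mul_const]
    ring
  have vD : ∀ n : ℕ, P * ∫ v : ℝ, HH φ v * Dn n v =
      (Λ n : ℂ) * cexp (-(3 / 2) * (Real.log n : ℂ)) * φ (Real.log n) := by
    intro n
    rw [← inversion hφ hc (Real.log n), ← hP]
    have e1 : (fun v : ℝ => HH φ v * Dn n v) = fun v : ℝ =>
        ((Λ n : ℂ) * cexp (-(3 / 2) * (Real.log n : ℂ))) *
          (HH φ v * cexp (-(v * (Real.log n : ℂ) * I))) := by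
      funext v
      unfold Dn
      have : cexp (-(sp v) * (Real.log n : ℂ)) =
          cexp (-(3 / 2) * (Real.log n : ℂ)) * cexp (-(v * (Real.log n : ℂ) * I)) := by
        rw [← Complex.exp_add]
        congr 1
        unfold sp
        ring
      rw [this]
      ring
    rw [e1, integral_const_mul]
    ring
  have vA : P * ∫ v : ℝ, HH φ v * (1 / (sp v - 1) - B) =
      (∫ l in Ioi (0 : ℝ), φ l * cexp ((1 - 3 / 2) * l)) - B * φ 0 := by
    rw [← resolvent hφ hc (show (1 : ℂ).re < 3 / 2 by norm_num), ← inversion0 hφ hc, ← hP]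
    have i1 : Integrable fun v : ℝ => HH φ v * (1 / (sp v - 1)) := by
      have := int_H1 hφ hc 0
      simpa using this
    have i2 : Integrable fun v : ℝ => HH φ v * B := (HH_integrable hφ hc).mul_const _
    have e1 : (fun v : ℝ => HH φ v * (1 / (sp v - 1) - B)) =
        fun v : ℝ => HH φ v * (1 / (sp v - 1)) - HH φ v * B := by
      funext v; ring
    rw [e1, integral_sub i1 i2, integral_mul_const]
    ring
  -- the series
  set F : ℕ → ℝ → ℂ := fun n v => HH φ v * Cn n v - HH φ v * Dn n v +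
    (if n = 0 then HH φ v * (1 / (sp v - 1) - B) else 0) with hF
  have iF : ∀ n, Integrable (F n) := by
    intro n
    refine ((int_HC hφ hc n).sub (int_HD hφ hc n)).add ?_
    by_cases h : n = 0
    · simp only [h, if_true]; exact int_H1 hφ hc B
    · simp only [h, if_false]; exact integrable_zero _ _ _
  have i0 : ∀ n : ℕ, Integrable fun v : ℝ =>
      (if n = 0 then HH φ v * (1 / (sp v - 1) - B) else 0) := by
    intro n
    by_cases h : n = 0
    · simp only [h, if_true]; exact int_H1 hφ hc B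
    · simp only [h, if_false]; exact integrable_zero _ _ _
  have s0 : Summable fun n : ℕ => ∫ v : ℝ,
      ‖(if n = 0 then HH φ v * (1 / (sp v - 1) - B) else 0)‖ := by
    refine summable_of_ne_finset_zero (s := {0}) fun n hn => ?_
    have : n ≠ 0 := by simpa using hn
    simp [this]
  have sF : Summable fun n => ∫ v, ‖F n v‖ := by
    refine Summable.of_nonneg_of_le (fun n => integral_nonneg fun v => norm_nonneg _) (fun n => ?_)
      (((sum_HC hφ hc).add (sum_HD hφ hc)).add s0)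
    have j1 : Integrable fun v => ‖HH φ v * Cn n v‖ + ‖HH φ v * Dn n v‖ :=
      (int_HC hφ hc n).norm.add (int_HD hφ hc n).norm
    rw [← integral_add (int_HC hφ hc n).norm (int_HD hφ hc n).norm,
      ← integral_add j1 (i0 n).norm]
    refine integral_mono (iF n).norm (j1.add (i0 n).norm) fun v => ?_
    refine (norm_add_le _ _).trans ?_
    exact add_le_add (norm_sub_le _ _) le_rfl
  have hsum := hasSum_integral_of_summable_integral_norm iF sF
  have hFt : ∀ v, ∑' n, F n v = HH φ v * LL (sp v) := by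
    intro v
    have s1 : Summable fun n => HH φ v * Cn n v - HH φ v * Dn n v :=
      ((summable_Cn v).mul_left _).sub ((summable_Dn v).mul_left _)
    have s2 : Summable fun n : ℕ => (if n = 0 then HH φ v * (1 / (sp v - 1) - B) else 0) := by
      refine summable_of_ne_finset_zero (s := {0}) fun n hn => ?_
      have : n ≠ 0 := by simpa using hn
      simp [this]
    rw [hF]
    simp only
    rw [s1.tsum_add s2, tsum_ite_eq, LL_eq, ← hB]
    have : ∑' n, (HH φ v * Cn n v - HH φ v * Dn n v) = HH φ v * ∑' n, (Cn n v - Dn n v) := by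
      rw [← tsum_mul_left]
      exact tsum_congr fun n => by ring
    rw [this]
    ring
  have h1 : ∫ v : ℝ, HH φ v * LL (sp v) = ∑' n, ∫ v, F n v := by
    rw [hsum.tsum_eq]
    congr 1
    funext v
    exact (hFt v).symm
  have h2 : ∀ n, P * ∫ v, F n v = (φ 0 / (2 * ((n : ℂ) + 1)) -
      ∫ l in Ioi (0 : ℝ), φ l * cexp ((-(2 * ((n : ℂ) + 1)) - 3 / 2) * l)) -
      (Λ n : ℂ) * cexp (-(3 / 2) * (Real.log n : ℂ)) * φ (Real.log n) +
      (if n = 0 then (∫ l in Ioi (0 : ℝ), φ l * cexp ((1 - 3 / 2) * l)) - B * φ 0 else 0) := by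
    intro n
    rw [hF]
    simp only
    have j1 : Integrable fun v => HH φ v * Cn n v - HH φ v * Dn n v :=
      (int_HC hφ hc n).sub (int_HD hφ hc n)
    rw [integral_add j1 (i0 n),
      integral_sub (int_HC hφ hc n) (int_HD hφ hc n), mul_add, mul_sub, vC, vD]
    congr 1
    by_cases h : n = 0
    · simp only [h, if_true]; exact vA
    · simp only [h, if_false, integral_zero, mul_zero]
  have hPn : ∀ x : ℂ, ‖P * x‖ = ‖P‖ * ‖x‖ := fun x => norm_mul _ _
  have sC : Summable fun n : ℕ => φ 0 / (2 * ((n : ℂ) + 1)) -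
      ∫ l in Ioi (0 : ℝ), φ l * cexp ((-(2 * ((n : ℂ) + 1)) - 3 / 2) * l) := by
    refine Summable.of_norm_bounded ((sum_HC hφ hc).mul_left ‖P‖) fun n => ?_
    rw [← vC n, hPn]
    exact mul_le_mul_of_nonneg_left (norm_integral_le_integral_norm _) (norm_nonneg _)
  have sD : Summable fun n : ℕ =>
      (Λ n : ℂ) * cexp (-(3 / 2) * (Real.log n : ℂ)) * φ (Real.log n) := by
    refine Summable.of_norm_bounded ((sum_HD hφ hc).mul_left ‖P‖) fun n => ?_
    rw [← vD n, hPn]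
    exact mul_le_mul_of_nonneg_left (norm_integral_le_integral_norm _) (norm_nonneg _)
  have s2 : Summable fun n : ℕ => (if n = 0 then
      (∫ l in Ioi (0 : ℝ), φ l * cexp ((1 - 3 / 2) * l)) - B * φ 0 else 0) := by
    refine summable_of_ne_finset_zero (s := {0}) fun n hn => ?_
    have : n ≠ 0 := by simpa using hn
    simp [this]
  rw [h1, ← tsum_mul_left]
  simp_rw [h2]
  rw [(sC.sub sD).tsum_add s2, sC.tsum_sub sD, tsum_ite_eq]
  ring

end

/-- WP-EF2 -/
theorem ef2 : S_EF2 := by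
  intro g hg hc
  have h := line_eq (ph_contDiff hg) (ph_compact hc)
  have h1 : ∫ v : ℝ, LL (3 / 2 + v * I) * (lap g (1 + v * I) + lap g (-1 - v * I)) =
      ∫ v : ℝ, HH (ph g) v * LL (sp v) := by
    congr 1
    funext v
    rw [lap_sum hg hc, mul_comm]
    rfl
  rw [h1, h]
  unfold WW
  have e0 : ph g 0 = 2 * g 0 := by
    simp [ph]
    ring
  have eA : ∫ l in Ioi (0 : ℝ), ph g l * cexp ((1 - 3 / 2) * l) =
      ∫ v in Ioi (0 : ℝ), (g v + g (-v)) * ((Real.exp (v / 2) : ℝ) : ℂ) := by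
    congr 1
    funext l
    unfold ph
    rw [mul_assoc, ← Complex.exp_add]
    push_cast
    congr 2
    ring
  have eC : ∀ n : ℕ, (ph g 0 / (2 * ((n : ℂ) + 1)) -
      ∫ l in Ioi (0 : ℝ), ph g l * cexp ((-(2 * ((n : ℂ) + 1)) - 3 / 2) * l)) =
      (g 0 / ((n : ℂ) + 1) - ∫ v in Ioi (0 : ℝ), (g v + g (-v)) *
        ((Real.exp (-(2 * ((n : ℝ) + 1) + 1 / 2) * v) : ℝ) : ℂ)) := by
    intro n
    have hn : ((n : ℂ) + 1) ≠ 0 := by exact_mod_cast Nat.succ_ne_zero n
    congr 1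
    · rw [e0]
      field_simp
    · congr 1
      funext l
      unfold ph
      rw [mul_assoc, ← Complex.exp_add]
      push_cast
      congr 2
      ring
  have eD : ∀ n : ℕ, (Λ n : ℂ) * cexp (-(3 / 2) * (Real.log n : ℂ)) * ph g (Real.log n) =
      ((Λ n / Real.sqrt n : ℝ) : ℂ) * (g (Real.log n) + g (-Real.log n)) := by
    intro n
    rcases Nat.eq_zero_or_pos n with h | h
    · subst h
      simp
    · have hn : (0 : ℝ) < n := by exact_mod_cast h
      unfold ph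
      have h3 : cexp (-(3 / 2) * (Real.log n : ℂ)) * cexp ((Real.log n : ℝ) : ℂ) =
          (((Real.sqrt n)⁻¹ : ℝ) : ℂ) := by
        rw [← Complex.exp_add, Real.sqrt_eq_rpow, Real.rpow_def_of_pos hn, ← Real.exp_neg]
        push_cast
        congr 1
        ring
      have h4 : (Λ n : ℂ) * cexp (-(3 / 2) * (Real.log n : ℂ)) *
          ((g (Real.log n) + g (-Real.log n)) * cexp ((Real.log n : ℝ) : ℂ)) =
          (Λ n : ℂ) * (g (Real.log n) + g (-Real.log n)) *
            (cexp (-(3 / 2) * (Real.log n : ℂ)) * cexp ((Real.log n : ℝ) : ℂ)) := by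
        ring
      rw [h4, h3, div_eq_mul_inv]
      push_cast
      ring
  simp_rw [eC, eD]
  rw [eA, e0]
  push_cast
  ring

end Pool.Agent.W187.WP.EFb
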