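import Mathlib
import Pool.Agent.W187.WP.Stmts

/-!
# Statements for the Weil positivity project, second part
-/

open Complex MeasureTheory Set

namespace Pool.Agent.W187.WP

/-- evaluation of a list of rational coefficients -/
noncomputable def ev : List ℚ → ℝ → ℝ
  | [], _ => 0
  | a :: l, x => (a : ℝ) + x * ev l x

/-- approximation of `(4/5) log 2` -/
def aQ : ℚ := 55451774444795624753/100000000000000000000

/-- approximation of `log 2 / sqrt 2` -/
def lamQ : ℚ := 122532267933568399/250000000000000000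

/-- upper bound of `γ + log (4 π a) - log 2`, `a = (4/5) log 2` -/
def c2Q : ℚ := 365087252083/200000000000

/-- approximate coefficients of `a * bco j * a ^ j` -/
def btl : List ℚ := [1386294361119890619/5000000000000000000, -6406040185576019/500000000000000000, -53283944318228717/5000000000000000000,
  229809164811603/2000000000000000000, 1706695442742841/5000000000000000000, -4656853988643/5000000000000000000,
  -106707637605721/10000000000000000000, 3666448269/500000000000000000, 1662908394441/5000000000000000000,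
  -143188607/2500000000000000000, -103621263019/10000000000000000000, 4464283/10000000000000000000,
  100886307/312500000000000000, -17389/5000000000000000000, -20116091/2000000000000000000,
  271/10000000000000000000, 3133609/10000000000000000000, -1/5000000000000000000,
  -24407/2500000000000000000, 0, 1521/5000000000000000000]

/-- Taylor polynomial of `cosh (a x / 2)` -/
def cpl : List ℚ := [1, 0, 384362411134561/10000000000000000,
  0, 2462241051553/10000000000000000, 0,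
  6309286049/10000000000000000, 0, 8660901/10000000000000000]

/-- Taylor polynomial of `sinh (a x / 2)` -/
def spl : List ℚ := [0, 2772588722239781/10000000000000000, 0,
  17761314772743/5000000000000000, 0, 136535635419/10000000000000000,
  0, 249900791/10000000000000000, 0,
  66703/2500000000000000]

/-- autocorrelation -/
noncomputable def GG (h : ℝ → ℝ) (s : ℝ) : ℝ := ∫ x : ℝ, h (x + s) * h x

/-- polynomial minorant of `-1/2 log (1-x^2)` -/
noncomputable def Um (x : ℝ) : ℝ := ∑ k ∈ Finset.range 32, x ^ (2 * (k + 1)) / (2 * ((k : ℝ) + 1))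

/-- Fubini on the triangle `-1 < x < y < 1` -/
def S_TRI : Prop := ∀ F : ℝ → ℝ → ℝ, Continuous (Function.uncurry F) →
  ∫ x in (-1 : ℝ)..1, (∫ y in x..1, F x y) = ∫ y in (-1 : ℝ)..1, (∫ x in (-1 : ℝ)..y, F x y)

/-- lower bound of the logarithmic part by the energy and a polynomial potential -/
def S_EN : Prop := ∀ h : ℝ → ℝ, ContDiff ℝ 1 h → (∀ x, 1 ≤ |x| → h x = 0) →
  1 / 2 * EE h + (∫ x in (-1 : ℝ)..1, (Real.log 2 + Um x) * h x ^ 2) ≤
    ∫ s in (0 : ℝ)..2, (GG h 0 - GG h s) / s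

/-- continuous kernels -/
def S_DB : Prop := ∀ h : ℝ → ℝ, ContDiff ℝ 1 h → (∀ x, 1 ≤ |x| → h x = 0) →
  ∀ φ : ℝ → ℝ, Continuous φ →
  ∫ s in (0 : ℝ)..2, φ s * GG h s =
    ∫ x in (-1 : ℝ)..1, (∫ y in x..1, φ (y - x) * (h x * h y))

/-- The Weil form (divided by `a`) of `u ↦ h (u / a)`, when only the prime 2 contributes -/
noncomputable def QQ (a : ℝ) (h : ℝ → ℝ) : ℝ :=
  -(Real.eulerMascheroniConstant + Real.log (4 * Real.pi * a)) * GG h 0
  + (∫ s in (0 : ℝ)..2, (GG h 0 / s - a * Real.exp (a * s / 2) / Real.sinh (a * s) * GG h s))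
  - 2 * (Real.log 2 / Real.sqrt 2) * GG h (Real.log 2 / a)
  + 2 * a * ((∫ x in (-1 : ℝ)..1, h x * Real.cosh (a * x / 2)) ^ 2 -
      (∫ x in (-1 : ℝ)..1, h x * Real.sinh (a * x / 2)) ^ 2)

/-- the explicit formula for an autocorrelation, in terms of `QQ` -/
def S_LINK : Prop := ∀ (f : ℝ → ℝ) (a : ℝ), 0 < a → ContDiff ℝ 2 f →
  (∀ x, a ≤ |x| → f x = 0) → (∀ y, Real.log 3 ≤ y → GG f y = 0) →
  WW (fun y => ((GG f y : ℝ) : ℂ)) = ((a * QQ a (fun x => f (a * x)) : ℝ) : ℂ)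

/-- the quadratic form with rational coefficients -/
noncomputable def Qr (h : ℝ → ℝ) : ℝ :=
  1 / 2 * EE h + (∫ x in (-1 : ℝ)..1, Um x * h x ^ 2) - (c2Q : ℝ) * (∫ x in (-1 : ℝ)..1, h x ^ 2)
  - (∫ x in (-1 : ℝ)..1, (∫ y in x..1, ev btl (y - x) * (h x * h y)))
  - 2 * (lamQ : ℝ) * (∫ x in (-1 : ℝ)..(-1 / 4), h x * h (x + 5 / 4))
  + 2 * (aQ : ℝ) * ((∫ x in (-1 : ℝ)..1, h x * ev cpl x) ^ 2 -
      (∫ x in (-1 : ℝ)..1, h x * ev spl x) ^ 2)

/-- numerical facts -/
def S_N1 : Prop := Real.eulerMascheroniConstant + Real.log (4 * Real.pi * (4 / 5 * Real.log 2)) -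
  Real.log 2 + 1 / 10 ^ 10 ≤ (c2Q : ℝ)

def S_N2 : Prop := ∀ s : ℝ, 0 < s → s ≤ 2 →
  |4 / 5 * Real.log 2 * Real.exp (4 / 5 * Real.log 2 * s / 2) / Real.sinh (4 / 5 * Real.log 2 * s)
    - 1 / s - ev btl s| ≤ 3 / 10 ^ 10

def S_N3 : Prop := |Real.log 2 / Real.sqrt 2 - (lamQ : ℝ)| ≤ 1 / 10 ^ 12 ∧
  |4 / 5 * Real.log 2 - (aQ : ℝ)| ≤ 1 / 10 ^ 12 ∧
  (∀ x : ℝ, |x| ≤ 1 → |Real.cosh (4 / 5 * Real.log 2 * x / 2) - ev cpl x| ≤ 2 / 10 ^ 12) ∧
  (∀ x : ℝ, |x| ≤ 1 → |Real.sinh (4 / 5 * Real.log 2 * x / 2) - ev spl x| ≤ 2 / 10 ^ 12)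

/-- comparison of `QQ` with the rational form -/
def S_QQ : Prop := ∀ h : ℝ → ℝ, ContDiff ℝ 2 h → (∀ x, 1 ≤ |x| → h x = 0) →
  Qr h - 1 / 10 ^ 9 * (∫ x in (-1 : ℝ)..1, h x ^ 2) ≤ QQ (4 / 5 * Real.log 2) h

/-- positivity of the rational form on even and on odd functions -/
def S_CORE : Prop := ∀ h : ℝ → ℝ, ContDiff ℝ 1 h →
  ((∀ x, h (-x) = h x) ∨ (∀ x, h (-x) = -h x)) →
  25 / 10 ^ 9 * (∫ x in (-1 : ℝ)..1, h x ^ 2) ≤ Qr h

end Pool.Agent.W187.WP
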