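import Mathlib
import Pool.Agent.W187.WP.Stmts2

/-!
# Rational polynomials as lists, and their evaluation
-/

open MeasureTheory Set

namespace Pool.Agent.W187.WP

def padd : List ℚ → List ℚ → List ℚ
  | [], q => q
  | a :: p, [] => a :: p
  | a :: p, b :: q => (a + b) :: padd p q

def psm (c : ℚ) : List ℚ → List ℚ
  | [] => []
  | a :: p => (c * a) :: psm c p

def pmul : List ℚ → List ℚ → List ℚ
  | [], _ => []
  | a :: p, q => padd (psm a q) (0 :: pmul p q)

/-- `p (x + s)` -/
def psh' (s : ℚ) : List ℚ → List ℚ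
  | [] => []
  | a :: l => padd [a] (padd (0 :: psh' s l) (psm s (psh' s l)))

def dbl : List ℚ → List ℚ
  | [] => []
  | a :: l => a :: 0 :: dbl l

/-- coefficients of even index -/
def ext0 : List ℚ → List ℚ
  | [] => []
  | [a] => [a]
  | a :: _ :: l => a :: ext0 l

def antiA : List ℚ → ℕ → List ℚ
  | [], _ => []
  | a :: l, n => (a / ((n : ℚ) + 1)) :: antiA l (n + 1)

/-- primitive vanishing at `0` -/
def A0 (p : List ℚ) : List ℚ := 0 :: antiA p 0

def Jl : List ℚ → ℕ → ℚ → List ℚ → List ℚ
  | [], _, _, _ => []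
  | b :: bs, k, f, p => padd (psm (b * f) (A0 p)) (Jl bs (k + 1) (f * ((k : ℚ) + 1)) (A0 p))

def dot : List ℚ → List ℚ → ℚ
  | a :: p, b :: q => a * b + dot p q
  | _, _ => 0

@[simp] theorem ev_nil (x : ℝ) : ev [] x = 0 := rfl
@[simp] theorem ev_cons (a : ℚ) (l : List ℚ) (x : ℝ) : ev (a :: l) x = (a : ℝ) + x * ev l x := rfl

theorem ev_padd : ∀ (p q : List ℚ) (x : ℝ), ev (padd p q) x = ev p x + ev q x
  | [], q, x => by simp [padd]
  | a :: p, [], x => by simp [padd]
  | a :: p, b :: q, x => by
      simp only [padd, ev_cons, ev_padd p q x]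
      push_cast; ring

theorem ev_psm (c : ℚ) : ∀ (p : List ℚ) (x : ℝ), ev (psm c p) x = (c : ℝ) * ev p x
  | [], x => by simp [psm]
  | a :: p, x => by
      simp only [psm, ev_cons, ev_psm c p x]
      push_cast; ring

theorem ev_pmul : ∀ (p q : List ℚ) (x : ℝ), ev (pmul p q) x = ev p x * ev q x
  | [], q, x => by simp [pmul]
  | a :: p, q, x => by
      simp only [pmul, ev_padd, ev_psm, ev_cons, ev_pmul p q x]
      push_cast; ring

theorem ev_psh' (s : ℚ) : ∀ (p : List ℚ) (x : ℝ), ev (psh' s p) x = ev p (x + s)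
  | [], x => by simp [psh']
  | a :: p, x => by
      simp only [psh', ev_padd, ev_psm, ev_cons, ev_nil, ev_psh' s p x]
      push_cast; ring

theorem ev_dbl : ∀ (p : List ℚ) (x : ℝ), ev (dbl p) x = ev p (x ^ 2)
  | [], x => by simp [dbl]
  | a :: p, x => by
      simp only [dbl, ev_cons, ev_dbl p x]
      push_cast; ring

theorem ev_ext0 : ∀ (p : List ℚ) (x : ℝ), ev p x + ev p (-x) = 2 * ev (ext0 p) (x ^ 2)
  | [], x => by simp [ext0]
  | [a], x => by simp [ext0]; ring
  | a :: b :: l, x => by
      have h := ev_ext0 l x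
      simp only [ext0, ev_cons]
      linear_combination x ^ 2 * h

theorem ev_ext1 (p : List ℚ) (x : ℝ) : ev p x - ev p (-x) = 2 * (x * ev (ext0 p.tail) (x ^ 2)) := by
  cases p with
  | nil => simp [ext0]
  | cons a l =>
      have h := ev_ext0 l x
      simp only [ev_cons, List.tail_cons]
      linear_combination x * h

theorem continuous_ev : ∀ p : List ℚ, Continuous (ev p)
  | [] => by
      show Continuous (fun _ : ℝ => (0 : ℝ))
      exact continuous_const
  | a :: p => by
      have h := continuous_ev p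
      show Continuous (fun x : ℝ => (a : ℝ) + x * ev p x)
      fun_prop

theorem contDiff_ev {n : WithTop ℕ∞} : ∀ p : List ℚ, ContDiff ℝ n (ev p)
  | [] => by
      show ContDiff ℝ n (fun _ : ℝ => (0 : ℝ))
      exact contDiff_const
  | a :: p => by
      have h := contDiff_ev (n := n) p
      show ContDiff ℝ n (fun x : ℝ => (a : ℝ) + x * ev p x)
      exact contDiff_const.add (contDiff_id.mul h)

theorem hasDerivAt_antiA : ∀ (p : List ℚ) (n : ℕ) (x : ℝ),
    HasDerivAt (fun x => x ^ (n + 1) * ev (antiA p n) x) (x ^ n * ev p x) x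
  | [], n, x => by simpa [antiA] using hasDerivAt_const x (0 : ℝ)
  | a :: p, n, x => by
      have h := hasDerivAt_antiA p (n + 1) x
      have h1 : HasDerivAt (fun x : ℝ => ((a : ℝ) / ((n : ℝ) + 1)) * x ^ (n + 1))
          (((a : ℝ) / ((n : ℝ) + 1)) * (((n + 1 : ℕ) : ℝ) * x ^ n)) x := by
        simpa using (hasDerivAt_pow (n + 1) x).const_mul ((a : ℝ) / ((n : ℝ) + 1))
      have h2 := h1.add h
      have e1 : (fun x : ℝ => x ^ (n + 1) * ev (antiA (a :: p) n) x) =
          fun x : ℝ => ((a : ℝ) / ((n : ℝ) + 1)) * x ^ (n + 1) +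
            x ^ (n + 1 + 1) * ev (antiA p (n + 1)) x := by
        funext y
        simp only [antiA, ev_cons]
        push_cast; ring
      have e2 : x ^ n * ev (a :: p) x = ((a : ℝ) / ((n : ℝ) + 1)) * (((n + 1 : ℕ) : ℝ) * x ^ n) +
          x ^ (n + 1) * ev p x := by
        have hn : ((n : ℝ) + 1) ≠ 0 := by positivity
        simp only [ev_cons]
        push_cast
        field_simp
        ring
      rw [e1, e2]
      exact h2

theorem hasDerivAt_A0 (p : List ℚ) (x : ℝ) : HasDerivAt (ev (A0 p)) (ev p x) x := by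
  have h := hasDerivAt_antiA p 0 x
  have e1 : (fun x : ℝ => x ^ (0 + 1) * ev (antiA p 0) x) = ev (A0 p) := by
    funext y
    simp [A0]
  rw [e1] at h
  simpa using h

@[simp] theorem ev_A0_zero (p : List ℚ) : ev (A0 p) 0 = 0 := by simp [A0]

theorem integral_ev (p : List ℚ) (a b : ℝ) : ∫ x in a..b, ev p x = ev (A0 p) b - ev (A0 p) a := by
  apply intervalIntegral.integral_eq_sub_of_hasDerivAt (fun x _ => hasDerivAt_A0 p x)
  exact (continuous_ev p).intervalIntegrable _ _

/-- repeated primitives -/
theorem integral_sub_pow (k : ℕ) : ∀ (p : List ℚ) (u : ℝ),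
    ∫ t in (0 : ℝ)..u, (u - t) ^ k * ev p t = (k.factorial : ℝ) * ev (A0^[k + 1] p) u := by
  induction k with
  | zero =>
      intro p u
      simp only [pow_zero, one_mul, Nat.factorial_zero, Nat.cast_one, zero_add,
        Function.iterate_one]
      rw [integral_ev, ev_A0_zero, sub_zero]
  | succ k ih =>
      intro p u
      have h := intervalIntegral.integral_mul_deriv_eq_deriv_mul
        (u := fun t : ℝ => (u - t) ^ (k + 1)) (v := ev (A0 p))
        (u' := fun t : ℝ => -(((k + 1 : ℕ) : ℝ) * (u - t) ^ k)) (v' := ev p) (a := 0) (b := u)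
        (by
          intro x _
          have := ((hasDerivAt_id' x).const_sub u).fun_pow (k + 1)
          simpa using this)
        (fun x _ => hasDerivAt_A0 p x)
        (Continuous.intervalIntegrable (by fun_prop) _ _)
        ((continuous_ev p).intervalIntegrable _ _)
      simp only [sub_self, zero_mul, ev_A0_zero, mul_zero, sub_zero, ne_eq, Nat.add_eq_zero_iff,
        one_ne_zero, and_false, not_false_eq_true, zero_pow] at h
      rw [h]
      have e : (fun x : ℝ => -(((k + 1 : ℕ) : ℝ) * (u - x) ^ k) * ev (A0 p) x) =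
          fun x : ℝ => (-((k + 1 : ℕ) : ℝ)) * ((u - x) ^ k * ev (A0 p) x) := by
        funext x; ring
      rw [e, intervalIntegral.integral_const_mul, ih (A0 p) u, Nat.factorial_succ,
        Function.iterate_succ_apply A0 (k + 1) p]
      push_cast
      ring

theorem integral_Jl : ∀ (bs : List ℚ) (k : ℕ) (p : List ℚ) (u : ℝ),
    ∫ t in (0 : ℝ)..u, (u - t) ^ k * ev bs (u - t) * ev p t =
      ev (Jl bs k (k.factorial : ℚ) (A0^[k] p)) u
  | [], k, p, u => by simp [Jl]
  | b :: bs, k, p, u => by
      have h := integral_Jl bs (k + 1) p u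
      have h1 := integral_sub_pow k p u
      have c1 : Continuous (fun t : ℝ => (b : ℝ) * ((u - t) ^ k * ev p t)) := by
        have := continuous_ev p
        fun_prop
      have c2 : Continuous (fun t : ℝ => (u - t) ^ (k + 1) * ev bs (u - t) * ev p t) := by
        have := continuous_ev p
        have := continuous_ev bs
        fun_prop
      have e : (fun t : ℝ => (u - t) ^ k * ev (b :: bs) (u - t) * ev p t) =
          fun t : ℝ => (b : ℝ) * ((u - t) ^ k * ev p t) +
            (u - t) ^ (k + 1) * ev bs (u - t) * ev p t := by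
        funext t
        simp only [ev_cons]
        ring
      rw [e, intervalIntegral.integral_add (c1.intervalIntegrable _ _)
        (c2.intervalIntegrable _ _), intervalIntegral.integral_const_mul, h1, h]
      simp only [Jl, ev_padd, ev_psm]
      rw [Nat.factorial_succ, Function.iterate_succ_apply' A0 k p]
      push_cast
      rw [mul_comm ((k : ℚ) + 1) ((k.factorial : ℚ))]
      ring

end Pool.Agent.W187.WP
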