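import Mathlib
import Pool.Agent.W187.WP.Poly

/-!
# Statements for the Weil positivity project, third part: reduction of `S_CORE` to finitely many
dimensions
-/

open MeasureTheory Set

namespace Pool.Agent.W187.WP

/-- the bilinear form of `Qr` -/
noncomputable def Cr (v w : ℝ → ℝ) : ℝ :=
  1 / 2 * (∫ x in (-1 : ℝ)..1, (∫ y in x..1, (v y - v x) * (w y - w x) / (y - x)))
  + (∫ x in (-1 : ℝ)..1, Um x * (v x * w x)) - (c2Q : ℝ) * (∫ x in (-1 : ℝ)..1, v x * w x)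
  - (∫ x in (-1 : ℝ)..1, (∫ y in x..1, ev btl (y - x) * ((v x * w y + v y * w x) / 2)))
  - (lamQ : ℝ) * (∫ x in (-1 : ℝ)..(-1 / 4), (v x * w (x + 5 / 4) + w x * v (x + 5 / 4)))
  + 2 * (aQ : ℝ) * ((∫ x in (-1 : ℝ)..1, v x * ev cpl x) * (∫ x in (-1 : ℝ)..1, w x * ev cpl x) -
      (∫ x in (-1 : ℝ)..1, v x * ev spl x) * (∫ x in (-1 : ℝ)..1, w x * ev spl x))

def S_R1 : Prop :=
  (∀ v w : ℝ → ℝ, ContDiff ℝ 1 v → ContDiff ℝ 1 w →
    Qr (fun x => v x + w x) = Qr v + 2 * Cr v w + Qr w) ∧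
  (∀ v : ℝ → ℝ, ContDiff ℝ 1 v → Qr v = Cr v v) ∧
  (∀ v v' w : ℝ → ℝ, ContDiff ℝ 1 v → ContDiff ℝ 1 v' → ContDiff ℝ 1 w →
    Cr (fun x => v x + v' x) w = Cr v w + Cr v' w) ∧
  (∀ (c : ℝ) (v w : ℝ → ℝ), ContDiff ℝ 1 v → ContDiff ℝ 1 w →
    Cr (fun x => c * v x) w = c * Cr v w)

/-- coefficients of `TT n` -/
def TTl (n : ℕ) : List ℚ :=
  (List.range n).map (fun j => if (n - j) % 2 = 0 then -(2 / ((n : ℚ) - (j : ℚ))) else 0) ++
    [2 * ((List.range n).map (fun i => 1 / ((i : ℚ) + 1))).sum]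

/-- `T` on lists; the first argument is the degree of the head coefficient -/
def Tl : ℕ → List ℚ → List ℚ
  | _, [] => []
  | n, a :: p => padd (psm a (TTl n)) (Tl (n + 1) p)

/-- energy of a polynomial against a function -/
def S_R2T : Prop := ∀ (P : List ℚ) (w : ℝ → ℝ), ContDiff ℝ 1 w →
  ∫ x in (-1 : ℝ)..1, (∫ y in x..1, (ev P y - ev P x) * (w y - w x) / (y - x)) =
    ∫ x in (-1 : ℝ)..1, w x * ev (Tl 0 P) x

/-- `P (-x)` -/
def pneg : List ℚ → List ℚ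
  | [] => []
  | a :: l => a :: psm (-1) (pneg l)

/-- the list of `∫_{-1}^x bt (x - y) P y dy` -/
def Jm (bt P : List ℚ) : List ℚ := psh' 1 (Jl bt 0 1 (psh' (-1) P))

/-- the list of `1/2 ∫_{-1}^1 bt |x - y| P y dy` -/
def Bl (bt P : List ℚ) : List ℚ := psm (1 / 2) (padd (Jm bt P) (pneg (Jm bt (pneg P))))

/-- convolution kernel of a polynomial against a function -/
def S_R2B : Prop := ∀ (bt P : List ℚ) (w : ℝ → ℝ), Continuous w →
  ∫ x in (-1 : ℝ)..1, (∫ y in x..1, ev bt (y - x) * ((ev P x * w y + ev P y * w x) / 2)) =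
    ∫ x in (-1 : ℝ)..1, w x * ev (Bl bt P) x

/-- parity: `s = 1` even, `s = -1` odd -/
def Par (s : ℝ) (h : ℝ → ℝ) : Prop := ∀ x, h (-x) = s * h x

/-- the shift term for functions of the same parity -/
def S_R2S : Prop := ∀ (s : ℝ) (v w : ℝ → ℝ), (s = 1 ∨ s = -1) → Continuous v → Continuous w →
  Par s v → Par s w →
  ∫ x in (-1 : ℝ)..(-1 / 4), (v x * w (x + 5 / 4) + w x * v (x + 5 / 4)) =
    2 * ∫ x in (1 / 4 : ℝ)..1, w x * v (x - 5 / 4)

/-- coercivity on functions orthogonal to the polynomials of degree `≤ 16` -/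
def S_R3 : Prop := ∀ w : ℝ → ℝ, ContDiff ℝ 1 w →
  (∀ k ≤ 16, ∫ x in (-1 : ℝ)..1, w x * x ^ k = 0) →
  (104 / 100) * (∫ x in (-1 : ℝ)..1, w x ^ 2) ≤ Qr w

/-- positive semidefiniteness certificate -/
def sumN (n : ℕ) (f : ℕ → ℚ) : ℚ := match n with
  | 0 => 0
  | k + 1 => sumN k f + f k

/-- entry of a matrix given as a list of rows -/
def ent (M : List (List ℚ)) (i j : ℕ) : ℚ := (M.getD i []).getD j 0

/-- residual of the approximate factorisation `M ≈ L Lᵀ` -/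
def res (M L : List (List ℚ)) (i j : ℕ) : ℚ := ent M i j - dot (L.getD i []) (L.getD j [])

def chkPSD (n : ℕ) (M L : List (List ℚ)) : Bool :=
  (List.range n).all (fun i => decide
    (sumN n (fun j => if j = i then 0 else |res M L i j| + |res M L j i|) ≤ 2 * res M L i i))

def S_PSD : Prop := ∀ (n : ℕ) (M L : List (List ℚ)), chkPSD n M L = true →
  ∀ c : ℕ → ℝ, 0 ≤ ∑ i ∈ Finset.range n, ∑ j ∈ Finset.range n, ((ent M i j : ℚ) : ℝ) * (c i * c j)

end Pool.Agent.W187.WP
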