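import Mathlib
import Pool.Agent.W187.WP.Stmts3

/-!
# Statements for the Weil positivity project, fourth part: monomials
-/

open MeasureTheory Set

namespace Pool.Agent.W187.WP

/-- for `N ≡ e mod 2`: value at `0` (`e = 0`) or slope at `0` (`e = 1`) of
`x ↦ 1/2 ∫_{-1}^1 |x - y|^k y^N dy` -/
def cB (e N k : ℕ) : ℚ := if e = 0 then 1 / ((N : ℚ) + (k : ℚ) + 1) else -(k : ℚ) / ((N : ℚ) + (k : ℚ))

/-- double primitive: `x^(e+2j)` becomes `f * x^(e+2j+2) / ((e+2j+1) (e+2j+2))` -/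
def sc (f : ℚ) (e : ℕ) : ℕ → List ℚ → List ℚ
  | _, [] => []
  | j, a :: l => (f * a / (((e : ℚ) + 2 * (j : ℚ) + 1) * ((e : ℚ) + 2 * (j : ℚ) + 2))) ::
      sc f e (j + 1) l

def Bacc (e N : ℕ) : ℕ → List ℚ → List ℚ → List ℚ → List ℚ
  | _, _, _, [] => []
  | k, X, Y, b :: bs => padd (psm b X)
      (Bacc e N (k + 1) Y (cB e N (k + 2) :: sc (((k : ℚ) + 1) * ((k : ℚ) + 2)) e 0 X) bs)

/-- `1/2 ∫_{-1}^1 bt |x-y| y^(e+2r) dy = x^e * ev (Bmt e r bt) (x^2)` -/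
def Bmt (e r : ℕ) (bt : List ℚ) : List ℚ :=
  Bacc e (e + 2 * r) 0 [cB e (e + 2 * r) 0]
    (cB e (e + 2 * r) 1 :: (List.replicate r 0 ++
      [1 / (((e : ℚ) + 2 * (r : ℚ) + 1) * ((e : ℚ) + 2 * (r : ℚ) + 2))])) bt

/-- convolution kernel of a monomial against a function -/
def S_R2C : Prop := ∀ (e r : ℕ), e ≤ 1 → ∀ (bt : List ℚ) (w : ℝ → ℝ), Continuous w →
  ∫ x in (-1 : ℝ)..1, (∫ y in x..1, ev bt (y - x) *
      ((x ^ (e + 2 * r) * w y + y ^ (e + 2 * r) * w x) / 2)) =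
    ∫ x in (-1 : ℝ)..1, w x * (x ^ e * ev (Bmt e r bt) (x ^ 2))

/-- existence of the projection on polynomials of given parity -/
def S_PROJ : Prop := ∀ (e n : ℕ), ∀ h : ℝ → ℝ, Continuous h →
  ∃ c : ℕ → ℝ, ∀ k < n, ∫ x in (-1 : ℝ)..1,
    (h x - ∑ j ∈ Finset.range n, c j * x ^ (e + 2 * j)) * x ^ (e + 2 * k) = 0

end Pool.Agent.W187.WP
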