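import Mathlib
import Pool.Agent.W187.WP.Stmts4

/-!
# Integer lists as polynomials, moments
-/

open MeasureTheory Set

namespace Pool.Agent.W187.WP

theorem ev_append : ∀ (p q : List ℚ) (x : ℝ), ev (p ++ q) x = ev p x + x ^ p.length * ev q x
  | [], q, x => by simp
  | a :: p, q, x => by
      simp only [List.cons_append, ev_cons, List.length_cons, ev_append p q x]
      ring

theorem ev_replicate (k : ℕ) (x : ℝ) : ev (List.replicate k 0) x = 0 := by
  induction k with
  | zero => simp
  | succ k ih => simp [List.replicate_succ, ih]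

theorem ev_shift (k : ℕ) (l : List ℚ) (x : ℝ) : ev (List.replicate k 0 ++ l) x = x ^ k * ev l x := by
  rw [ev_append, ev_replicate, List.length_replicate, zero_add]

theorem ev_map_range (k : ℕ) (f : ℕ → ℚ) (x : ℝ) :
    ev ((List.range k).map f) x = ∑ j ∈ Finset.range k, (f j : ℝ) * x ^ j := by
  induction k with
  | zero => simp
  | succ k ih =>
      rw [List.range_succ, List.map_append, ev_append, ih, Finset.sum_range_succ]
      simp
      ring

/-- evaluation of integer lists -/
noncomputable def evi : List ℤ → ℝ → ℝ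
  | [], _ => 0
  | a :: l, x => (a : ℝ) + x * evi l x

@[simp] theorem evi_nil (x : ℝ) : evi [] x = 0 := rfl
@[simp] theorem evi_cons (a : ℤ) (l : List ℤ) (x : ℝ) : evi (a :: l) x = (a : ℝ) + x * evi l x := rfl

def paddi : List ℤ → List ℤ → List ℤ
  | [], q => q
  | a :: p, [] => a :: p
  | a :: p, b :: q => Int.add a b :: paddi p q

def psmi (c : ℤ) : List ℤ → List ℤ
  | [] => []
  | a :: p => Int.mul c a :: psmi c p

def doti : List ℤ → List ℤ → ℤ
  | a :: p, b :: q => Int.add (Int.mul a b) (doti p q)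
  | _, _ => 0

def mlsi (q : List ℤ) : ℕ → List ℤ → List ℤ
  | 0, _ => []
  | n + 1, m => doti q m :: mlsi q n m.tail

/-- multiplication by `b + a x` -/
def lini (b a : ℤ) (p : List ℤ) : List ℤ := paddi (psmi b p) (0 :: psmi a p)

/-- coefficients of `(b + a x) ^ n` -/
def powi (b a : ℤ) : ℕ → List ℤ
  | 0 => [1]
  | n + 1 => lini b a (powi b a n)

/-- coefficients of `x ^ e * p (x ^ 2)` -/
def dbli : List ℤ → List ℤ
  | [] => []
  | a :: l => a :: 0 :: dbli l

def xli : ℕ → List ℤ → List ℤ
  | 0, p => dbli p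
  | e + 1, p => 0 :: xli e p

theorem evi_paddi : ∀ (p q : List ℤ) (x : ℝ), evi (paddi p q) x = evi p x + evi q x
  | [], q, x => by simp [paddi]
  | a :: p, [], x => by simp [paddi]
  | a :: p, b :: q, x => by
      simp only [paddi, evi_cons, evi_paddi p q x]
      rw [show Int.add a b = a + b from rfl]
      push_cast; ring

theorem evi_psmi (c : ℤ) : ∀ (p : List ℤ) (x : ℝ), evi (psmi c p) x = (c : ℝ) * evi p x
  | [], x => by simp [psmi]
  | a :: p, x => by
      simp only [psmi, evi_cons, evi_psmi c p x]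
      rw [show Int.mul c a = c * a from rfl]
      push_cast; ring

theorem evi_lini (b a : ℤ) (p : List ℤ) (x : ℝ) :
    evi (lini b a p) x = ((b : ℝ) + (a : ℝ) * x) * evi p x := by
  simp only [lini, evi_paddi, evi_psmi, evi_cons]
  push_cast; ring

theorem evi_powi (b a : ℤ) (n : ℕ) (x : ℝ) : evi (powi b a n) x = ((b : ℝ) + (a : ℝ) * x) ^ n := by
  induction n with
  | zero => simp [powi]
  | succ n ih => rw [powi, evi_lini, ih, pow_succ]; ring

theorem evi_dbli : ∀ (p : List ℤ) (x : ℝ), evi (dbli p) x = evi p (x ^ 2)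
  | [], x => by simp [dbli]
  | a :: p, x => by
      simp only [dbli, evi_cons, evi_dbli p x]
      push_cast; ring

theorem evi_xli (e : ℕ) (p : List ℤ) (x : ℝ) : evi (xli e p) x = x ^ e * evi p (x ^ 2) := by
  induction e with
  | zero => simp [xli, evi_dbli]
  | succ e ih => simp only [xli, evi_cons, ih]; push_cast; ring

theorem evi_take_drop (n : ℕ) : ∀ (p : List ℤ) (x : ℝ),
    evi p x = evi (p.take n) x + x ^ n * evi (p.drop n) x := by
  induction n with
  | zero => intro p x; simp
  | succ n ih =>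
      intro p x
      cases p with
      | nil => simp
      | cons a p =>
          simp only [List.take_succ_cons, List.drop_succ_cons, evi_cons]
          rw [ih p x]; ring

theorem continuous_evi : ∀ p : List ℤ, Continuous (evi p)
  | [] => by
      show Continuous (fun _ : ℝ => (0 : ℝ))
      exact continuous_const
  | a :: p => by
      have h := continuous_evi p
      show Continuous (fun x : ℝ => (a : ℝ) + x * evi p x)
      fun_prop

/-- `D * p = l` -/
def eqs (D : ℚ) : List ℚ → List ℤ → Bool
  | [], [] => true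
  | a :: p, b :: q => decide (D * a = (b : ℚ)) && eqs D p q
  | _, _ => false

theorem eqs_ev (D : ℚ) : ∀ (p : List ℚ) (l : List ℤ), eqs D p l = true →
    ∀ x : ℝ, (D : ℝ) * ev p x = evi l x
  | [], [], _, x => by simp
  | [], b :: q, h, x => by simp [eqs] at h
  | a :: p, [], h, x => by simp [eqs] at h
  | a :: p, b :: q, h, x => by
      simp only [eqs, Bool.and_eq_true, decide_eq_true_eq] at h
      have h1 := eqs_ev D p q h.2 x
      simp only [ev_cons, evi_cons]
      have h2 : (D : ℝ) * (a : ℝ) = (b : ℝ) := by exact_mod_cast congrArg (fun t : ℚ => (t : ℝ)) h.1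
      rw [← h1, ← h2]; ring

/-- `l` is the list of the moments `D * ∫ φ g ^ j`, `j ≥ k` -/
def IsM (φ g : ℝ → ℝ) (lo hi D : ℝ) : ℕ → List ℤ → Prop
  | _, [] => True
  | k, a :: l => (a : ℝ) = D * (∫ x in lo..hi, φ x * g x ^ k) ∧ IsM φ g lo hi D (k + 1) l

theorem IsM.tail {φ g : ℝ → ℝ} {lo hi D : ℝ} {k : ℕ} {l : List ℤ} (h : IsM φ g lo hi D k l) :
    IsM φ g lo hi D (k + 1) l.tail := by
  cases l with
  | nil => exact trivial
  | cons a l => exact h.2

theorem IsM.drop {φ g : ℝ → ℝ} {lo hi D : ℝ} {l : List ℤ} (h : IsM φ g lo hi D 0 l) (n : ℕ) :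
    IsM φ g lo hi D n (l.drop n) := by
  induction n with
  | zero => simpa using h
  | succ n ih =>
      have := ih.tail
      rwa [List.tail_drop] at this

theorem doti_eq {φ g : ℝ → ℝ} (hφ : Continuous φ) (hg : Continuous g) {lo hi D : ℝ} :
    ∀ (q M : List ℤ) (k : ℕ), IsM φ g lo hi D k M → q.length ≤ M.length →
      ((doti q M : ℤ) : ℝ) = D * ∫ x in lo..hi, φ x * g x ^ k * evi q (g x)
  | [], M, k, _, _ => by
      cases M <;> simp [doti]
  | a :: q, [], k, _, h => by simp at h
  | a :: q, b :: M, k, hM, hl => by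
      have ih := doti_eq hφ hg q M (k + 1) hM.2 (by simpa using hl)
      have hq := continuous_evi q
      have e1 : (fun x => φ x * g x ^ k * evi (a :: q) (g x)) =
          fun x => (a : ℝ) * (φ x * g x ^ k) + φ x * g x ^ (k + 1) * evi q (g x) := by
        funext x; simp only [evi_cons]; ring
      rw [e1, intervalIntegral.integral_add (Continuous.intervalIntegrable (by fun_prop) _ _)
        (Continuous.intervalIntegrable (by fun_prop) _ _), intervalIntegral.integral_const_mul]
      simp only [doti]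
      rw [show Int.add (Int.mul a b) (doti q M) = a * b + doti q M from rfl]
      push_cast
      rw [ih, hM.1]
      ring

theorem doti_mlsi {φ g : ℝ → ℝ} (hφ : Continuous φ) (hg : Continuous g) {lo hi D : ℝ} (q : List ℤ) :
    ∀ (p : List ℤ) (n : ℕ) (M : List ℤ) (k : ℕ), IsM φ g lo hi D k M → p.length ≤ n →
      n + q.length ≤ M.length + 1 →
      ((doti p (mlsi q n M) : ℤ) : ℝ) = D * ∫ x in lo..hi, φ x * g x ^ k * (evi p (g x) * evi q (g x))
  | [], n, M, k, _, _, _ => by
      cases n <;> simp [doti]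
  | a :: p, 0, M, k, _, h, _ => by simp at h
  | a :: p, n + 1, M, k, hM, hp, hl => by
      have ih := doti_mlsi hφ hg q p n M.tail (k + 1) hM.tail (by simpa using hp) (by
        rw [List.length_tail]; omega)
      have h0 := doti_eq hφ hg q M k hM (by omega)
      have cq := continuous_evi q
      have cp := continuous_evi p
      have e1 : (fun x => φ x * g x ^ k * (evi (a :: p) (g x) * evi q (g x))) =
          fun x => (a : ℝ) * (φ x * g x ^ k * evi q (g x)) +
            φ x * g x ^ (k + 1) * (evi p (g x) * evi q (g x)) := by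
        funext x; simp only [evi_cons]; ring
      rw [e1, intervalIntegral.integral_add (Continuous.intervalIntegrable (by fun_prop) _ _)
        (Continuous.intervalIntegrable (by fun_prop) _ _), intervalIntegral.integral_const_mul]
      simp only [doti, mlsi]
      rw [show Int.add (Int.mul a (doti q M)) (doti p (mlsi q n M.tail)) =
        a * doti q M + doti p (mlsi q n M.tail) from rfl]
      push_cast
      rw [ih, h0]
      ring

/-- check of the moments `∫_0^1 x ^ (2 e) (x ^ 2) ^ j = 1 / (2 e + 2 j + 1)` -/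
def chkM1 (e : ℕ) (D : ℤ) : ℕ → List ℤ → Bool
  | _, [] => true
  | k, a :: l => decide (a * (2 * ((e : ℤ) + (k : ℤ)) + 1) = D) && chkM1 e D (k + 1) l

theorem chkM1_spec (e : ℕ) (D : ℤ) : ∀ (l : List ℤ) (k : ℕ), chkM1 e D k l = true →
    IsM (fun x => x ^ (2 * e)) (fun x => x ^ 2) 0 1 D k l
  | [], _, _ => trivial
  | a :: l, k, h => by
      simp only [chkM1, Bool.and_eq_true, decide_eq_true_eq] at h
      refine ⟨?_, chkM1_spec e D l (k + 1) h.2⟩
      have e1 : (fun x : ℝ => x ^ (2 * e) * (x ^ 2) ^ k) = fun x : ℝ => x ^ (2 * (e + k)) := by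
        funext x; rw [← pow_mul, ← pow_add]; congr 1; ring
      rw [e1, integral_pow]
      have h1 : (a : ℝ) * (2 * ((e : ℝ) + (k : ℝ)) + 1) = (D : ℝ) := by exact_mod_cast h.1
      have h2 : (2 * ((e : ℝ) + (k : ℝ)) + 1) ≠ 0 := by positivity
      push_cast
      rw [← h1]
      field_simp
      simp

/-- check of the moments `∫_{lo}^1 x ^ j`, `lo = 1/4` -/
def chkMQ (D : ℤ) : ℕ → List ℤ → Bool
  | _, [] => true
  | k, a :: l => decide (a * ((k : ℤ) + 1) * 4 ^ (k + 1) = D * (4 ^ (k + 1) - 1)) &&
      chkMQ D (k + 1) l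

theorem chkMQ_spec (D : ℤ) : ∀ (l : List ℤ) (k : ℕ), chkMQ D k l = true →
    IsM (fun _ => 1) (fun x => x) (1 / 4) 1 D k l
  | [], _, _ => trivial
  | a :: l, k, h => by
      simp only [chkMQ, Bool.and_eq_true, decide_eq_true_eq] at h
      refine ⟨?_, chkMQ_spec D l (k + 1) h.2⟩
      simp only [one_mul]
      rw [integral_pow]
      have h1 : (a : ℝ) * ((k : ℝ) + 1) * 4 ^ (k + 1) = (D : ℝ) * (4 ^ (k + 1) - 1) := by
        exact_mod_cast h.1
      have h2 : ((k : ℝ) + 1) ≠ 0 := by positivity
      have h3 : (4 : ℝ) ^ (k + 1) ≠ 0 := by positivity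
      have h4 : (a : ℝ) = (D : ℝ) * (4 ^ (k + 1) - 1) / (((k : ℝ) + 1) * 4 ^ (k + 1)) := by
        field_simp
        linarith [h1]
      rw [h4, one_div, inv_pow]
      field_simp
      simp

end Pool.Agent.W187.WP
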