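import Mathlib
import Pool.Agent.W187.WP.IntL

/-!
# Reduction of `S_CORE` to finitely many dimensions: assembly
-/

open MeasureTheory Set

namespace Pool.Agent.W187.WP

/-- `U` in the variable `x ^ 2` -/
def Utl : List ℚ := [0, 1/2, 1/4, 1/6, 1/8, 1/10, 1/12, 1/14, 1/16, 1/18, 1/20, 1/22, 1/24, 1/26,
  1/28, 1/30, 1/32, 1/34, 1/36, 1/38, 1/40, 1/42, 1/44, 1/46, 1/48, 1/50, 1/52, 1/54, 1/56, 1/58,
  1/60, 1/62, 1/64]

def HN : ℕ → ℚ
  | 0 => 0
  | n + 1 => HN n + 1 / ((n : ℚ) + 1)

def ThL (e k : ℕ) : List ℚ :=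
  (List.range k).map (fun j : ℕ => -(1 / (2 * ((k : ℚ) - (j : ℚ))))) ++ [HN (e + 2 * k)]

/-- the potential of `x ^ (e + 2 k)`, in the variable `x ^ 2` and divided by `x ^ e` -/
def zl (e k : ℕ) : List ℚ :=
  padd (padd (ThL e k) (List.replicate k 0 ++ Utl))
    (padd (List.replicate k 0 ++ [-c2Q]) (psm (-1) (Bmt e k btl)))

noncomputable def zf (e k : ℕ) (x : ℝ) : ℝ := x ^ e * ev (zl e k) (x ^ 2)

noncomputable def ph (e k : ℕ) (x : ℝ) : ℝ := x ^ (e + 2 * k)

noncomputable def sf (e k : ℕ) (x : ℝ) : ℝ := (x - 5 / 4) ^ (e + 2 * k)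

theorem HN_eq (N : ℕ) : ((HN N : ℚ) : ℝ) = ∑ i ∈ Finset.range N, (1 : ℝ) / (i + 1) := by
  induction N with
  | zero => simp [HN]
  | succ n ih => rw [HN, Finset.sum_range_succ, ← ih]; push_cast; ring

theorem ev_Utl (x : ℝ) : ev Utl (x ^ 2) = Um x := by
  unfold Utl Um
  simp only [ev_cons, ev_nil, Finset.sum_range_succ, Finset.sum_range_zero]
  push_cast
  ring

theorem sum_parity (e k : ℕ) (he : e ≤ 1) (f : ℕ → ℝ) :
    ∑ j ∈ Finset.range (e + 2 * k), (if Even (e + 2 * k - j) then f j else 0) =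
      ∑ j ∈ Finset.range k, f (e + 2 * j) := by
  have key : ∀ m : ℕ, ∑ j ∈ Finset.range (e + 2 * m), (if (j + e) % 2 = 0 then f j else 0) =
      ∑ j ∈ Finset.range m, f (e + 2 * j) := by
    intro m
    induction m with
    | zero =>
        interval_cases e
        · simp
        · simp
    | succ m ih =>
        rw [show e + 2 * (m + 1) = e + 2 * m + 1 + 1 by ring, Finset.sum_range_succ,
          Finset.sum_range_succ, ih, Finset.sum_range_succ]
        rw [if_pos (by omega), if_neg (by omega), add_zero]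
  rw [← key k]
  apply Finset.sum_congr rfl
  intro j hj
  rw [Finset.mem_range] at hj
  have : Even (e + 2 * k - j) ↔ (j + e) % 2 = 0 := by
    rw [Nat.even_iff]; omega
  simp only [this]

theorem ThL_eq (e k : ℕ) (he : e ≤ 1) (x : ℝ) :
    x ^ e * ev (ThL e k) (x ^ 2) = 1 / 2 * TT (e + 2 * k) x := by
  unfold ThL TT
  rw [ev_append, ev_map_range, List.length_map, List.length_range]
  simp only [ev_cons, ev_nil, mul_zero, add_zero]
  rw [HN_eq, mul_sub]
  generalize (∑ i ∈ Finset.range (e + 2 * k), (1 : ℝ) / (↑i + 1)) = A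
  have h1 : ∑ j ∈ Finset.range (e + 2 * k), (if Even (e + 2 * k - j) then
      2 / (((e + 2 * k : ℕ) : ℝ) - j) * x ^ j else 0) =
      ∑ j ∈ Finset.range k, 2 / (((e + 2 * k : ℕ) : ℝ) - ((e + 2 * j : ℕ) : ℝ)) * x ^ (e + 2 * j) :=
    sum_parity e k he (fun j => 2 / (((e + 2 * k : ℕ) : ℝ) - j) * x ^ j)
  rw [h1, mul_add, Finset.mul_sum, Finset.mul_sum]
  have h2 : ∀ j ∈ Finset.range k, x ^ e * (((-(1 / (2 * ((k : ℚ) - (j : ℚ)))) : ℚ) : ℝ) *
      (x ^ 2) ^ j) = -(1 / 2 * (2 / (((e + 2 * k : ℕ) : ℝ) - ((e + 2 * j : ℕ) : ℝ)) *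
      x ^ (e + 2 * j))) := by
    intro j hj
    rw [Finset.mem_range] at hj
    have h3 : ((k : ℝ) - (j : ℝ)) ≠ 0 := by
      have : (j : ℝ) < (k : ℝ) := by exact_mod_cast hj
      linarith
    push_cast
    have h4 : ((e : ℝ) + 2 * (k : ℝ) - ((e : ℝ) + 2 * (j : ℝ))) = 2 * ((k : ℝ) - (j : ℝ)) := by ring
    rw [h4, pow_add, pow_mul]
    field_simp
  rw [Finset.sum_congr rfl h2, Finset.sum_neg_distrib]
  have h5 : x ^ (e + 2 * k) = x ^ e * (x ^ 2) ^ k := by rw [pow_add, pow_mul]
  rw [h5]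
  ring

theorem zf_eq (e k : ℕ) (he : e ≤ 1) (x : ℝ) :
    zf e k x = 1 / 2 * TT (e + 2 * k) x + Um x * ph e k x - (c2Q : ℝ) * ph e k x -
      x ^ e * ev (Bmt e k btl) (x ^ 2) := by
  unfold zf zl ph
  rw [ev_padd, ev_padd, ev_padd, ev_psm, ev_shift, ev_shift, ev_Utl, mul_add, mul_add,
    ThL_eq e k he]
  simp only [ev_cons, ev_nil, mul_zero, add_zero]
  rw [pow_add, pow_mul]
  push_cast
  ring

theorem integral_even_fun {F : ℝ → ℝ} (hF : Continuous F) (h : ∀ x, F (-x) = F x) :
    ∫ x in (-1 : ℝ)..1, F x = 2 * ∫ x in (0 : ℝ)..1, F x := by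
  rw [← intervalIntegral.integral_add_adjacent_intervals (b := 0) (hF.intervalIntegrable _ _)
    (hF.intervalIntegrable _ _)]
  have h1 : ∫ x in (-1 : ℝ)..0, F x = ∫ x in (0 : ℝ)..1, F x := by
    have h2 := intervalIntegral.integral_comp_neg (a := 0) (b := 1) F
    simp only [neg_zero] at h2
    rw [← h2]
    exact intervalIntegral.integral_congr (fun x _ => h x)
  rw [h1]; ring

theorem integral_odd_fun {F : ℝ → ℝ} (hF : Continuous F) (h : ∀ x, F (-x) = -F x) :
    ∫ x in (-1 : ℝ)..1, F x = 0 := by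
  rw [← intervalIntegral.integral_add_adjacent_intervals (b := 0) (hF.intervalIntegrable _ _)
    (hF.intervalIntegrable _ _)]
  have h1 : ∫ x in (-1 : ℝ)..0, F x = -∫ x in (0 : ℝ)..1, F x := by
    have h2 := intervalIntegral.integral_comp_neg (a := 0) (b := 1) F
    simp only [neg_zero] at h2
    rw [← h2, ← intervalIntegral.integral_neg]
    exact intervalIntegral.integral_congr (fun x _ => h x)
  rw [h1]; ring

theorem continuous_zf (e k : ℕ) : Continuous (zf e k) := by
  have := continuous_ev (zl e k)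
  unfold zf
  fun_prop

theorem continuous_ph (e k : ℕ) : Continuous (ph e k) := by unfold ph; fun_prop

theorem continuous_sf (e k : ℕ) : Continuous (sf e k) := by unfold sf; fun_prop

theorem contDiff_ph (e k : ℕ) : ContDiff ℝ 1 (ph e k) := by unfold ph; fun_prop

theorem continuous_Um : Continuous Um := by
  unfold Um
  fun_prop

theorem continuous_TT (n : ℕ) : Continuous (TT n) := by
  unfold TT
  refine Continuous.sub (by fun_prop) (continuous_finsetSum _ (fun j _ => ?_))
  split_ifs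
  · fun_prop
  · fun_prop

theorem par_ph (e k : ℕ) : Par ((-1) ^ e) (ph e k) := by
  intro x
  unfold ph
  rw [neg_pow, pow_add, pow_mul (-1 : ℝ) 2 k]
  norm_num

theorem par_zf (e k : ℕ) : Par ((-1) ^ e) (zf e k) := by
  intro x
  unfold zf
  rw [neg_pow]
  norm_num
  ring

theorem sgn_sq (e : ℕ) : ((-1 : ℝ) ^ e) * ((-1 : ℝ) ^ e) = 1 := by
  rw [← pow_add, ← two_mul, pow_mul]; norm_num

theorem crA (hTX : S_TX) (hC : S_R2C) (hS : S_R2S) (e k : ℕ) (he : e ≤ 1) (w : ℝ → ℝ)
    (hw : ContDiff ℝ 1 w) (hp : Par ((-1) ^ e) w) :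
    Cr (ph e k) w = 2 * (∫ x in (0 : ℝ)..1, w x * zf e k x)
      - 2 * (lamQ : ℝ) * (∫ x in (1 / 4 : ℝ)..1, w x * sf e k x)
      + 2 * (aQ : ℝ) * ((∫ x in (-1 : ℝ)..1, ph e k x * ev cpl x) *
          (∫ x in (-1 : ℝ)..1, w x * ev cpl x) -
        (∫ x in (-1 : ℝ)..1, ph e k x * ev spl x) * (∫ x in (-1 : ℝ)..1, w x * ev spl x)) := by
  have cw : Continuous w := hw.continuous
  have cz := continuous_zf e k
  have cp := continuous_ph e k
  have cU := continuous_Um
  have cT := continuous_TT (e + 2 * k)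
  have cB := continuous_ev (Bmt e k btl)
  have h1 : 2 * (∫ x in (0 : ℝ)..1, w x * zf e k x) = ∫ x in (-1 : ℝ)..1, w x * zf e k x := by
    rw [integral_even_fun (F := fun x => w x * zf e k x) (cw.mul cz)]
    intro x
    simp only [hp x, par_zf e k x]
    have := sgn_sq e
    linear_combination (w x * zf e k x) * this
  have h2 : ∫ x in (-1 : ℝ)..1, w x * zf e k x =
      1 / 2 * (∫ x in (-1 : ℝ)..1, w x * TT (e + 2 * k) x) +
        (∫ x in (-1 : ℝ)..1, Um x * (ph e k x * w x)) -
        (c2Q : ℝ) * (∫ x in (-1 : ℝ)..1, ph e k x * w x) -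
        ∫ x in (-1 : ℝ)..1, w x * (x ^ e * ev (Bmt e k btl) (x ^ 2)) := by
    have e1 : (fun x => w x * zf e k x) = fun x => 1 / 2 * (w x * TT (e + 2 * k) x) +
        Um x * (ph e k x * w x) - (c2Q : ℝ) * (ph e k x * w x) -
        w x * (x ^ e * ev (Bmt e k btl) (x ^ 2)) := by
      funext x; rw [zf_eq e k he x]; ring
    rw [e1, intervalIntegral.integral_sub (Continuous.intervalIntegrable (by fun_prop) _ _)
      (Continuous.intervalIntegrable (by fun_prop) _ _), intervalIntegral.integral_sub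
      (Continuous.intervalIntegrable (by fun_prop) _ _)
      (Continuous.intervalIntegrable (by fun_prop) _ _), intervalIntegral.integral_add
      (Continuous.intervalIntegrable (by fun_prop) _ _)
      (Continuous.intervalIntegrable (by fun_prop) _ _), intervalIntegral.integral_const_mul,
      intervalIntegral.integral_const_mul]
  have h3 := hTX (e + 2 * k) w hw
  have h4 := hC e k he btl w cw
  have h5 := hS ((-1) ^ e) (ph e k) w (by
    interval_cases e
    · left; norm_num
    · right; norm_num) cp cw (par_ph e k) hp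
  have h6 : (∫ x in (1 / 4 : ℝ)..1, w x * sf e k x) =
      ∫ x in (1 / 4 : ℝ)..1, w x * ph e k (x - 5 / 4) := rfl
  rw [h1, h2, h6]
  unfold Cr
  rw [h5]
  simp only [ph] at *
  rw [h3, h4]
  ring

/-- bilinear expansion -/
theorem int_bil (n : ℕ) (c : ℕ → ℝ) (f g : ℕ → ℝ → ℝ) (hf : ∀ k, Continuous (f k))
    (hg : ∀ k, Continuous (g k)) (a b : ℝ) :
    ∫ x in a..b, (∑ k ∈ Finset.range n, c k * f k x) * (∑ l ∈ Finset.range n, c l * g l x) =
      ∑ k ∈ Finset.range n, ∑ l ∈ Finset.range n, (∫ x in a..b, f k x * g l x) * (c k * c l) := by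
  have e1 : (fun x => (∑ k ∈ Finset.range n, c k * f k x) * (∑ l ∈ Finset.range n, c l * g l x)) =
      fun x => ∑ k ∈ Finset.range n, ∑ l ∈ Finset.range n, (f k x * g l x) * (c k * c l) := by
    funext x
    rw [Finset.sum_mul_sum]
    refine Finset.sum_congr rfl (fun k _ => Finset.sum_congr rfl (fun l _ => ?_))
    ring
  rw [e1, intervalIntegral.integral_finsetSum]
  · refine Finset.sum_congr rfl (fun k _ => ?_)
    rw [intervalIntegral.integral_finsetSum]
    · refine Finset.sum_congr rfl (fun l _ => ?_)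
      rw [intervalIntegral.integral_mul_const]
    · intro l _
      exact (((hf k).mul (hg l)).mul continuous_const).intervalIntegrable _ _
  · intro k _
    apply Continuous.intervalIntegrable
    refine continuous_finsetSum _ (fun l _ => ?_)
    exact ((hf k).mul (hg l)).mul continuous_const

theorem int_lin (n : ℕ) (c : ℕ → ℝ) (f : ℕ → ℝ → ℝ) (w : ℝ → ℝ) (hf : ∀ k, Continuous (f k))
    (hw : Continuous w) (a b : ℝ) :
    ∫ x in a..b, w x * (∑ k ∈ Finset.range n, c k * f k x) =
      ∑ k ∈ Finset.range n, c k * (∫ x in a..b, w x * f k x) := by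
  have e1 : (fun x => w x * (∑ k ∈ Finset.range n, c k * f k x)) =
      fun x => ∑ k ∈ Finset.range n, c k * (w x * f k x) := by
    funext x
    rw [Finset.mul_sum]
    refine Finset.sum_congr rfl (fun k _ => ?_)
    ring
  rw [e1, intervalIntegral.integral_finsetSum]
  · refine Finset.sum_congr rfl (fun k _ => ?_)
    rw [intervalIntegral.integral_const_mul]
  · intro k _
    exact (continuous_const.mul (hw.mul (hf k))).intervalIntegrable _ _

theorem Cr_sum (hR1 : S_R1) (n : ℕ) (c : ℕ → ℝ) (f : ℕ → ℝ → ℝ) (hf : ∀ k, ContDiff ℝ 1 (f k))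
    (w : ℝ → ℝ) (hw : ContDiff ℝ 1 w) :
    Cr (fun x => ∑ k ∈ Finset.range n, c k * f k x) w =
      ∑ k ∈ Finset.range n, c k * Cr (f k) w := by
  obtain ⟨_, _, hadd, hsm⟩ := hR1
  induction n with
  | zero =>
      have h := hsm 0 w w hw hw
      simp only [zero_mul] at h
      simpa using h
  | succ n ih =>
      have e1 : (fun x => ∑ k ∈ Finset.range (n + 1), c k * f k x) =
          fun x => (fun x => ∑ k ∈ Finset.range n, c k * f k x) x + (fun x => c n * f n x) x := by
        funext x; rw [Finset.sum_range_succ]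
      rw [e1, hadd _ _ w (by
        apply ContDiff.sum
        intro k _
        exact contDiff_const.mul (hf k)) (contDiff_const.mul (hf n)) hw, ih, hsm (c n) (f n) w (hf n) hw,
        Finset.sum_range_succ]

/-- square of a sum of three functions -/
theorem int_sq3 (f g h : ℝ → ℝ) (hf : Continuous f) (hg : Continuous g) (hh : Continuous h)
    (lam : ℝ) (a b : ℝ) :
    ∫ x in a..b, (f x - lam * g x + h x) ^ 2 =
      (∫ x in a..b, f x * f x) + lam ^ 2 * (∫ x in a..b, g x * g x) + (∫ x in a..b, h x ^ 2)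
      - 2 * lam * (∫ x in a..b, g x * f x) + 2 * (∫ x in a..b, h x * f x)
      - 2 * lam * (∫ x in a..b, h x * g x) := by
  have e1 : (fun x => (f x - lam * g x + h x) ^ 2) = fun x =>
      f x * f x + lam ^ 2 * (g x * g x) + h x ^ 2 - 2 * lam * (g x * f x) + 2 * (h x * f x)
      - 2 * lam * (h x * g x) := by
    funext x; ring
  rw [e1, intervalIntegral.integral_sub, intervalIntegral.integral_add,
    intervalIntegral.integral_sub, intervalIntegral.integral_add, intervalIntegral.integral_add,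
    intervalIntegral.integral_const_mul, intervalIntegral.integral_const_mul,
    intervalIntegral.integral_const_mul, intervalIntegral.integral_const_mul] <;>
  exact Continuous.intervalIntegrable (by fun_prop) _ _

theorem r4 (hR1 : S_R1) (hTX : S_TX) (hC : S_R2C) (hS : S_R2S) (hR3 : S_R3) (hP : S_PROJ)
    (e n : ℕ) (he : e ≤ 1) (hn1 : 17 ≤ e + 2 * n) (hn2 : e + 2 * n ≤ 18)
    (yf : ℕ → ℝ → ℝ) (hyc : ∀ k, Continuous (yf k))
    (hy : ∀ k < n, ∀ w : ℝ → ℝ, Continuous w →
      (∀ j < n, ∫ x in (0 : ℝ)..1, w x * x ^ (e + 2 * j) = 0) →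
      ∫ x in (0 : ℝ)..1, w x * yf k x = ∫ x in (0 : ℝ)..1, w x * zf e k x)
    (N : ℕ → ℕ → ℝ)
    (hN : ∀ k < n, ∀ l < n, N k l = 2 * (∫ x in (0 : ℝ)..1, zf e k x * ph e l x)
      - 2 * (∫ x in (0 : ℝ)..1, yf k x * yf l x)
      - 2 * (lamQ : ℝ) * (∫ x in (1 / 4 : ℝ)..1, sf e k x * ph e l x)
      + 4 * (lamQ : ℝ) * (∫ x in (1 / 4 : ℝ)..1, sf e k x * yf l x)
      - 2 * (lamQ : ℝ) ^ 2 * (∫ x in (1 / 4 : ℝ)..1, sf e k x * sf e l x)
      + 2 * (aQ : ℝ) * ((∫ x in (-1 : ℝ)..1, ph e k x * ev cpl x) *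
          (∫ x in (-1 : ℝ)..1, ph e l x * ev cpl x) -
        (∫ x in (-1 : ℝ)..1, ph e k x * ev spl x) * (∫ x in (-1 : ℝ)..1, ph e l x * ev spl x))
      - 6 / 10 ^ 8 * (∫ x in (0 : ℝ)..1, ph e k x * ph e l x))
    (hpsd : ∀ c : ℕ → ℝ, 0 ≤ ∑ k ∈ Finset.range n, ∑ l ∈ Finset.range n, N k l * (c k * c l))
    (h : ℝ → ℝ) (hh : ContDiff ℝ 1 h) (hpar : Par ((-1) ^ e) h) :
    25 / 10 ^ 9 * (∫ x in (-1 : ℝ)..1, h x ^ 2) ≤ Qr h := by
  obtain ⟨c, hc⟩ := hP e n h hh.continuous
  set v : ℝ → ℝ := fun x => ∑ j ∈ Finset.range n, c j * ph e j x with hv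
  set w : ℝ → ℝ := fun x => h x - v x with hw
  have vC : ContDiff ℝ 1 v := by
    rw [hv]
    apply ContDiff.sum
    intro k _
    exact contDiff_const.mul (contDiff_ph e k)
  have wC : ContDiff ℝ 1 w := hh.sub vC
  have cv := vC.continuous
  have cw := wC.continuous
  have ch := hh.continuous
  have vpar : Par ((-1) ^ e) v := by
    intro x
    simp only [hv]
    rw [Finset.mul_sum]
    refine Finset.sum_congr rfl (fun k _ => ?_)
    rw [par_ph e k x]; ring
  have wpar : Par ((-1) ^ e) w := by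
    intro x
    simp only [hw]
    rw [hpar x, vpar x]; ring
  have worth : ∀ k < n, ∫ x in (-1 : ℝ)..1, w x * x ^ (e + 2 * k) = 0 := fun k hk => hc k hk
  -- orthogonality on [0,1]
  have worth0 : ∀ k < n, ∫ x in (0 : ℝ)..1, w x * x ^ (e + 2 * k) = 0 := by
    intro k hk
    have h1 := worth k hk
    rw [integral_even_fun (by fun_prop)] at h1
    · linarith
    · intro x
      have h2 := par_ph e k x
      unfold ph at h2
      rw [wpar x, h2]
      linear_combination (w x * x ^ (e + 2 * k)) * sgn_sq e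
  -- orthogonality to all monomials
  have worth16 : ∀ k ≤ 16, ∫ x in (-1 : ℝ)..1, w x * x ^ k = 0 := by
    intro k hk
    by_cases hke : (k + e) % 2 = 0
    · obtain ⟨j, hj⟩ : ∃ j, k = e + 2 * j := ⟨(k - e) / 2, by omega⟩
      rw [hj]
      exact worth j (by omega)
    · apply integral_odd_fun (by fun_prop)
      intro x
      rw [wpar x, neg_pow]
      have : (-1 : ℝ) ^ e * (-1) ^ k = -1 := by
        rw [← pow_add]
        exact Odd.neg_one_pow (Nat.odd_iff.mpr (by omega))
      linear_combination (w x * x ^ k) * this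
  -- orthogonality to polynomials
  have wpoly : ∀ (p : List ℚ) (k : ℕ), k + p.length ≤ 17 →
      ∫ x in (-1 : ℝ)..1, w x * (x ^ k * ev p x) = 0 := by
    intro p
    induction p with
    | nil => intro k _; simp
    | cons a p ih =>
        intro k hk
        simp only [List.length_cons] at hk
        have cp := continuous_ev p
        have e1 : (fun x => w x * (x ^ k * ev (a :: p) x)) =
            fun x => (a : ℝ) * (w x * x ^ k) + w x * (x ^ (k + 1) * ev p x) := by
          funext x; simp only [ev_cons]; ring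
        rw [e1, intervalIntegral.integral_add (Continuous.intervalIntegrable (by fun_prop) _ _)
          (Continuous.intervalIntegrable (by fun_prop) _ _), intervalIntegral.integral_const_mul,
          worth16 k (by omega), ih (k + 1) (by omega)]
        ring
  have wc : ∫ x in (-1 : ℝ)..1, w x * ev cpl x = 0 := by
    have := wpoly cpl 0 (by decide)
    simpa using this
  have ws : ∫ x in (-1 : ℝ)..1, w x * ev spl x = 0 := by
    have := wpoly spl 0 (by decide)
    simpa using this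
  -- decomposition
  have hdec : Qr h = Qr v + 2 * Cr v w + Qr w := by
    have := hR1.1 v w vC wC
    rw [← this]
    congr 1
    funext x
    simp only [hw]; ring
  have hQv : Qr v = Cr v v := hR1.2.1 v vC
  have cz := continuous_zf e
  have cph := continuous_ph e
  have cs := continuous_sf e
  set zv : ℝ → ℝ := fun x => ∑ j ∈ Finset.range n, c j * zf e j x with hzv
  set yv : ℝ → ℝ := fun x => ∑ j ∈ Finset.range n, c j * yf j x with hyv
  set sv : ℝ → ℝ := fun x => ∑ j ∈ Finset.range n, c j * sf e j x with hsv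
  have czv : Continuous zv := continuous_finsetSum _ (fun k _ => continuous_const.mul (cz k))
  have cyv : Continuous yv := continuous_finsetSum _ (fun k _ => continuous_const.mul (hyc k))
  have csv : Continuous sv := continuous_finsetSum _ (fun k _ => continuous_const.mul (cs k))
  set C : ℝ := ∫ x in (-1 : ℝ)..1, v x * ev cpl x with hCdef
  set S : ℝ := ∫ x in (-1 : ℝ)..1, v x * ev spl x with hSdef
  have hCsum : C = ∑ j ∈ Finset.range n, c j * ∫ x in (-1 : ℝ)..1, ph e j x * ev cpl x := by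
    have h1 := int_lin n c (ph e) (ev cpl) cph (continuous_ev _) (-1) 1
    rw [hCdef]
    calc ∫ x in (-1 : ℝ)..1, v x * ev cpl x = ∫ x in (-1 : ℝ)..1, ev cpl x * v x := by
          congr 1; funext x; ring
      _ = _ := by
          rw [h1]
          refine Finset.sum_congr rfl (fun k _ => ?_)
          congr 2; funext x; ring
  have hSsum : S = ∑ j ∈ Finset.range n, c j * ∫ x in (-1 : ℝ)..1, ph e j x * ev spl x := by
    have h1 := int_lin n c (ph e) (ev spl) cph (continuous_ev _) (-1) 1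
    rw [hSdef]
    calc ∫ x in (-1 : ℝ)..1, v x * ev spl x = ∫ x in (-1 : ℝ)..1, ev spl x * v x := by
          congr 1; funext x; ring
      _ = _ := by
          rw [h1]
          refine Finset.sum_congr rfl (fun k _ => ?_)
          congr 2; funext x; ring
  have hCvv : Cr v v = 2 * (∫ x in (0 : ℝ)..1, v x * zv x)
      - 2 * (lamQ : ℝ) * (∫ x in (1 / 4 : ℝ)..1, v x * sv x) + 2 * (aQ : ℝ) * (C * C - S * S) := by
    rw [hv, Cr_sum hR1 n c (ph e) (contDiff_ph e) _ vC]
    have h1 : ∀ k ∈ Finset.range n, c k * Cr (ph e k) v =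
        2 * (c k * ∫ x in (0 : ℝ)..1, v x * zf e k x)
        - 2 * (lamQ : ℝ) * (c k * ∫ x in (1 / 4 : ℝ)..1, v x * sf e k x)
        + 2 * (aQ : ℝ) * ((c k * ∫ x in (-1 : ℝ)..1, ph e k x * ev cpl x) * C -
          (c k * ∫ x in (-1 : ℝ)..1, ph e k x * ev spl x) * S) := by
      intro k _
      rw [crA hTX hC hS e k he v vC vpar]
      ring
    rw [Finset.sum_congr rfl h1, Finset.sum_add_distrib, Finset.sum_sub_distrib,
      ← Finset.mul_sum, ← Finset.mul_sum, ← Finset.mul_sum, Finset.sum_sub_distrib,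
      ← Finset.sum_mul, ← Finset.sum_mul, ← hCsum, ← hSsum,
      ← int_lin n c (zf e) v cz cv, ← int_lin n c (sf e) v cs cv]
  have hCvw : Cr v w = 2 * (∫ x in (0 : ℝ)..1, w x * yv x)
      - 2 * (lamQ : ℝ) * (∫ x in (1 / 4 : ℝ)..1, w x * sv x) := by
    rw [hv, Cr_sum hR1 n c (ph e) (contDiff_ph e) _ wC]
    have h1 : ∀ k ∈ Finset.range n, c k * Cr (ph e k) w =
        2 * (c k * ∫ x in (0 : ℝ)..1, w x * yf k x)
        - 2 * (lamQ : ℝ) * (c k * ∫ x in (1 / 4 : ℝ)..1, w x * sf e k x) := by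
      intro k hk
      rw [Finset.mem_range] at hk
      rw [crA hTX hC hS e k he w wC wpar, wc, ws, hy k hk w cw worth0]
      ring
    rw [Finset.sum_congr rfl h1, Finset.sum_sub_distrib,
      ← Finset.mul_sum, ← Finset.mul_sum,
      ← int_lin n c yf w hyc cw, ← int_lin n c (sf e) w cs cw]
  -- the finite dimensional form
  have hfin := hpsd c
  have hfin2 : ∑ k ∈ Finset.range n, ∑ l ∈ Finset.range n, N k l * (c k * c l) =
      2 * (∫ x in (0 : ℝ)..1, zv x * v x) - 2 * (∫ x in (0 : ℝ)..1, yv x * yv x)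
      - 2 * (lamQ : ℝ) * (∫ x in (1 / 4 : ℝ)..1, sv x * v x)
      + 4 * (lamQ : ℝ) * (∫ x in (1 / 4 : ℝ)..1, sv x * yv x)
      - 2 * (lamQ : ℝ) ^ 2 * (∫ x in (1 / 4 : ℝ)..1, sv x * sv x)
      + 2 * (aQ : ℝ) * (C * C - S * S) - 6 / 10 ^ 8 * (∫ x in (0 : ℝ)..1, v x * v x) := by
    rw [hzv, hyv, hsv, hv]
    rw [int_bil n c (zf e) (ph e) cz cph, int_bil n c yf yf hyc hyc,
      int_bil n c (sf e) (ph e) cs cph, int_bil n c (sf e) yf cs hyc,
      int_bil n c (sf e) (sf e) cs cs, int_bil n c (ph e) (ph e) cph cph]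
    have hCC : C * C = ∑ k ∈ Finset.range n, ∑ l ∈ Finset.range n,
        ((∫ x in (-1 : ℝ)..1, ph e k x * ev cpl x) *
          (∫ x in (-1 : ℝ)..1, ph e l x * ev cpl x)) * (c k * c l) := by
      rw [hCsum, Finset.sum_mul_sum]
      refine Finset.sum_congr rfl (fun k _ => Finset.sum_congr rfl (fun l _ => ?_))
      ring
    have hSS : S * S = ∑ k ∈ Finset.range n, ∑ l ∈ Finset.range n,
        ((∫ x in (-1 : ℝ)..1, ph e k x * ev spl x) *
          (∫ x in (-1 : ℝ)..1, ph e l x * ev spl x)) * (c k * c l) := by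
      rw [hSsum, Finset.sum_mul_sum]
      refine Finset.sum_congr rfl (fun k _ => Finset.sum_congr rfl (fun l _ => ?_))
      ring
    rw [hCC, hSS]
    simp only [Finset.mul_sum, ← Finset.sum_add_distrib, ← Finset.sum_sub_distrib]
    refine Finset.sum_congr rfl (fun k hk => Finset.sum_congr rfl (fun l hl => ?_))
    rw [hN k (Finset.mem_range.mp hk) l (Finset.mem_range.mp hl)]
    ring
  rw [hfin2] at hfin
  -- symmetric integrals
  have s1 : ∫ x in (0 : ℝ)..1, zv x * v x = ∫ x in (0 : ℝ)..1, v x * zv x := by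
    congr 1; funext x; ring
  have s2 : ∫ x in (1 / 4 : ℝ)..1, sv x * v x = ∫ x in (1 / 4 : ℝ)..1, v x * sv x := by
    congr 1; funext x; ring
  -- squares
  have q1 : 0 ≤ ∫ x in (0 : ℝ)..(1 / 4), (yv x - 0 * sv x + w x) ^ 2 :=
    intervalIntegral.integral_nonneg (by norm_num) (fun x _ => sq_nonneg _)
  have q2 : 0 ≤ ∫ x in (1 / 4 : ℝ)..1, (yv x - (lamQ : ℝ) * sv x + w x) ^ 2 :=
    intervalIntegral.integral_nonneg (by norm_num) (fun x _ => sq_nonneg _)
  rw [int_sq3 yv sv w cyv csv cw] at q1 q2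
  have t1 : (∫ x in (0 : ℝ)..1, yv x * yv x) =
      (∫ x in (0 : ℝ)..(1 / 4), yv x * yv x) + ∫ x in (1 / 4 : ℝ)..1, yv x * yv x := by
    rw [intervalIntegral.integral_add_adjacent_intervals] <;>
    exact Continuous.intervalIntegrable (by fun_prop) _ _
  have t2 : (∫ x in (0 : ℝ)..1, w x * yv x) =
      (∫ x in (0 : ℝ)..(1 / 4), w x * yv x) + ∫ x in (1 / 4 : ℝ)..1, w x * yv x := by
    rw [intervalIntegral.integral_add_adjacent_intervals] <;>
    exact Continuous.intervalIntegrable (by fun_prop) _ _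
  have t3 : (∫ x in (0 : ℝ)..1, w x ^ 2) =
      (∫ x in (0 : ℝ)..(1 / 4), w x ^ 2) + ∫ x in (1 / 4 : ℝ)..1, w x ^ 2 := by
    rw [intervalIntegral.integral_add_adjacent_intervals] <;>
    exact Continuous.intervalIntegrable (by fun_prop) _ _
  have t4 : (∫ x in (-1 : ℝ)..1, w x ^ 2) = 2 * ∫ x in (0 : ℝ)..1, w x ^ 2 := by
    apply integral_even_fun (by fun_prop)
    intro x
    rw [wpar x]
    linear_combination (w x ^ 2) * sgn_sq e
  have t5 : (∫ x in (-1 : ℝ)..1, v x ^ 2) = 2 * ∫ x in (0 : ℝ)..1, v x * v x := by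
    rw [integral_even_fun (F := fun x => v x ^ 2) (by fun_prop)]
    · congr 2; funext x; ring
    · intro x
      rw [vpar x]
      linear_combination (v x ^ 2) * sgn_sq e
  have hwv : ∫ x in (-1 : ℝ)..1, w x * v x = 0 := by
    rw [hv, int_lin n c (ph e) w cph cw]
    apply Finset.sum_eq_zero
    intro k hk
    rw [Finset.mem_range] at hk
    have := worth k hk
    unfold ph
    rw [this, mul_zero]
  have t6 : (∫ x in (-1 : ℝ)..1, h x ^ 2) =
      (∫ x in (-1 : ℝ)..1, v x ^ 2) + ∫ x in (-1 : ℝ)..1, w x ^ 2 := by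
    have e1 : (fun x => h x ^ 2) = fun x => v x ^ 2 + w x ^ 2 + 2 * (w x * v x) := by
      funext x; simp only [hw]; ring
    rw [e1, intervalIntegral.integral_add (Continuous.intervalIntegrable (by fun_prop) _ _)
      (Continuous.intervalIntegrable (by fun_prop) _ _), intervalIntegral.integral_add
      (Continuous.intervalIntegrable (by fun_prop) _ _)
      (Continuous.intervalIntegrable (by fun_prop) _ _), intervalIntegral.integral_const_mul, hwv]
    ring
  have h3 := hR3 w wC worth16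
  have p1 : 0 ≤ ∫ x in (0 : ℝ)..1, v x * v x :=
    intervalIntegral.integral_nonneg (by norm_num) (fun x _ => mul_self_nonneg _)
  have p2 : 0 ≤ ∫ x in (0 : ℝ)..1, w x ^ 2 :=
    intervalIntegral.integral_nonneg (by norm_num) (fun x _ => sq_nonneg _)
  rw [t6, t5, t4, hdec, hQv, hCvv, hCvw, t2]
  rw [t4] at h3
  rw [s1, s2, t1] at hfin
  rw [t3] at h3 p2 ⊢
  nlinarith [hfin, q1, q2, h3, p1, p2]

end Pool.Agent.W187.WP
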