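import Mathlib
import Pool.Agent.W187.WP.R4

/-!
# The finite dimensional certificate
-/

open MeasureTheory Set

namespace Pool.Agent.W187.WP

/-- `Σ l_j / (2 (m + j) + 1)` -/
def dotr : ℕ → List ℚ → ℚ
  | _, [] => 0
  | m, a :: l => a / (2 * (m : ℚ) + 1) + dotr (m + 1) l

/-- coefficients of parity `e` -/
def exe' : ℕ → List ℚ → List ℚ
  | 0, p => ext0 p
  | _ + 1, p => ext0 p.tail

def ccq (e : ℕ) (c : List ℚ) (k : ℕ) : ℚ := 2 * dotr (e + k) (exe' e c)

theorem dotr_eq : ∀ (l : List ℚ) (m : ℕ),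
    ∫ x in (0 : ℝ)..1, x ^ (2 * m) * ev l (x ^ 2) = ((dotr m l : ℚ) : ℝ)
  | [], m => by simp [dotr]
  | a :: l, m => by
      have ih := dotr_eq l (m + 1)
      have cl := continuous_ev l
      have e1 : (fun x : ℝ => x ^ (2 * m) * ev (a :: l) (x ^ 2)) =
          fun x : ℝ => (a : ℝ) * x ^ (2 * m) + x ^ (2 * (m + 1)) * ev l (x ^ 2) := by
        funext x; simp only [ev_cons]; ring
      rw [e1, intervalIntegral.integral_add (Continuous.intervalIntegrable (by fun_prop) _ _)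
        (Continuous.intervalIntegrable (by fun_prop) _ _), intervalIntegral.integral_const_mul, ih,
        integral_pow]
      simp only [dotr]
      push_cast
      simp
      ring

theorem ccq_eq (e k : ℕ) (he : e ≤ 1) (c : List ℚ) :
    ∫ x in (-1 : ℝ)..1, ph e k x * ev c x = ((ccq e c k : ℚ) : ℝ) := by
  have cc := continuous_ev c
  have cp := continuous_ph e k
  set F : ℝ → ℝ := fun x => ph e k x * ev c x with hF
  have cF : Continuous F := cp.mul cc
  have h0 : ∫ x in (-1 : ℝ)..1, F x = ∫ x in (0 : ℝ)..1, (F x + F (-x)) := by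
    rw [← intervalIntegral.integral_add_adjacent_intervals (b := 0) (cF.intervalIntegrable _ _)
      (cF.intervalIntegrable _ _)]
    have h2 := intervalIntegral.integral_comp_neg (a := 0) (b := 1) F
    simp only [neg_zero] at h2
    rw [← h2, intervalIntegral.integral_add (Continuous.intervalIntegrable (by fun_prop) _ _)
      (Continuous.intervalIntegrable (by fun_prop) _ _)]
    ring
  rw [h0]
  have h1 : ∀ x : ℝ, F x + F (-x) = 2 * (x ^ (2 * (e + k)) * ev (exe' e c) (x ^ 2)) := by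
    intro x
    simp only [hF]
    rw [par_ph e k x]
    unfold ph
    interval_cases e
    · have := ev_ext0 c x
      simp only [exe', pow_zero, one_mul, zero_add]
      linear_combination x ^ (2 * k) * this
    · have := ev_ext1 c x
      simp only [exe', pow_one]
      linear_combination x ^ (1 + 2 * k) * this
  simp only [h1]
  rw [intervalIntegral.integral_const_mul, dotr_eq]
  unfold ccq
  push_cast
  ring

structure CD where
  e : ℕ
  n : ℕ
  DZ : ℤ
  DM : ℤ
  DQ : ℤ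
  lp : ℤ
  lq : ℤ
  Z : List (List ℤ)
  Y : List (List ℤ)
  M1 : List ℤ
  MQ : List ℤ
  BY : List (List ℤ)
  G : List (List ℤ)
  LY : ℕ

/-- `4 ^ 16 * (x - 5 / 4) ^ N` -/
def Sl (N : ℕ) : List ℤ := psmi (4 ^ (16 - N)) (powi (-5) 4 N)

def DS : ℤ := 4 ^ 16

/-- scaled `-2 λ φ + 4 λ y - 2 λ ^ 2 s` -/
def gl (d : CD) (l : ℕ) : List ℤ :=
  paddi (psmi (-2 * d.lp * d.lq * d.DZ * DS) (List.replicate (d.e + 2 * l) 0 ++ [1]))
    (paddi (psmi (4 * d.lp * d.lq * DS) (xli d.e (d.Y.getD l [])))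
      (psmi (-2 * d.lp ^ 2 * d.DZ) (Sl (d.e + 2 * l))))

def nent (d : CD) (k l : ℕ) : ℚ :=
  2 * (doti (d.Z.getD k []) (d.M1.drop l) : ℚ) / ((d.DZ * d.DM : ℤ) : ℚ)
  - 2 * (doti (d.Y.getD k []) (d.BY.getD l []) : ℚ) / ((d.DZ * d.DZ * d.DM : ℤ) : ℚ)
  + (doti (Sl (d.e + 2 * k)) (d.G.getD l []) : ℚ) /
      ((DS * (d.DZ * DS * d.lq ^ 2) * d.DQ : ℤ) : ℚ)
  + 2 * aQ * (ccq d.e cpl k * ccq d.e cpl l - ccq d.e spl k * ccq d.e spl l)
  - 6 / 10 ^ 8 / (2 * ((d.e + k + l : ℕ) : ℚ) + 1)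

def eqi : List ℤ → List ℤ → Bool
  | [], [] => true
  | a :: p, b :: q => decide (a = b) && eqi p q
  | _, _ => false

theorem eqi_eq : ∀ (p q : List ℤ), eqi p q = true → p = q
  | [], [], _ => rfl
  | [], b :: q, h => by simp [eqi] at h
  | a :: p, [], h => by simp [eqi] at h
  | a :: p, b :: q, h => by
      simp only [eqi, Bool.and_eq_true, decide_eq_true_eq] at h
      rw [h.1, eqi_eq p q h.2]

def chkZ (d : CD) (k : ℕ) : Bool := eqs (d.DZ : ℚ) (zl d.e k) (d.Z.getD k [])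

def chkY (d : CD) (k : ℕ) : Bool :=
  eqi ((d.Y.getD k []).drop d.n) ((d.Z.getD k []).drop d.n)
  && decide (k + (d.Z.getD k []).length ≤ d.M1.length)
  && decide ((d.Z.getD k []).length + d.n ≤ d.M1.length)
  && decide ((d.Y.getD k []).length ≤ d.LY)
  && decide (d.LY + (d.Y.getD k []).length ≤ d.M1.length + 1)

def chkB (d : CD) (l : ℕ) : Bool := eqi (d.BY.getD l []) (mlsi (d.Y.getD l []) d.LY d.M1)

def chkG (d : CD) (l : ℕ) : Bool := eqi (d.G.getD l []) (mlsi (gl d l) 17 d.MQ)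
  && decide (17 + (gl d l).length ≤ d.MQ.length + 1)
  && decide ((Sl (d.e + 2 * l)).length ≤ 17)

def chk0 (d : CD) : Bool := decide (d.e ≤ 1) && decide (17 ≤ d.e + 2 * d.n) &&
  decide (d.e + 2 * d.n ≤ 18) && decide (0 < d.DZ) && decide (0 < d.DM) && decide (0 < d.DQ) &&
  decide (0 < d.lq) && decide (lamQ * (d.lq : ℚ) = (d.lp : ℚ)) && chkM1 d.e d.DM 0 d.M1 &&
  chkMQ d.DQ 0 d.MQ

def chkN (d : CD) (N : List (List ℚ)) (k : ℕ) : Bool :=
  (List.range (k + 1)).all (fun l => decide (ent N k l + ent N l k = nent d k l + nent d l k))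

/-- a rational number -/
def rq (n : ℤ) (m : ℕ) : ℚ := mkRat n m

noncomputable def yf (d : CD) (k : ℕ) (x : ℝ) : ℝ :=
  x ^ d.e * evi (d.Y.getD k []) (x ^ 2) / (d.DZ : ℝ)

theorem evi_replicate_one (k : ℕ) (x : ℝ) : evi (List.replicate k 0 ++ [1]) x = x ^ k := by
  induction k with
  | zero => simp
  | succ k ih =>
      rw [List.replicate_succ, List.cons_append, evi_cons, ih, pow_succ]
      push_cast
      ring

theorem evi_Sl (N : ℕ) (hN : N ≤ 16) (x : ℝ) : evi (Sl N) x = (DS : ℝ) * (x - 5 / 4) ^ N := by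
  unfold Sl
  rw [evi_psmi, evi_powi]
  have h1 : (DS : ℝ) = 4 ^ (16 - N) * 4 ^ N := by
    rw [← pow_add, show 16 - N + N = 16 by omega]
    unfold DS
    norm_num
  rw [h1, mul_assoc, ← mul_pow]
  push_cast
  congr 2
  ring

theorem cert (hR1 : S_R1) (hTX : S_TX) (hC : S_R2C) (hS : S_R2S) (hR3 : S_R3) (hP : S_PROJ)
    (hPSD : S_PSD) (d : CD) (N L : List (List ℚ)) (h0 : chk0 d = true)
    (hZ : ∀ k < d.n, chkZ d k = true) (hY : ∀ k < d.n, chkY d k = true)
    (hB : ∀ k < d.n, chkB d k = true) (hG : ∀ k < d.n, chkG d k = true)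
    (hN : ∀ k < d.n, chkN d N k = true) (hL : chkPSD d.n N L = true)
    (h : ℝ → ℝ) (hh : ContDiff ℝ 1 h) (hpar : Par ((-1) ^ d.e) h) :
    25 / 10 ^ 9 * (∫ x in (-1 : ℝ)..1, h x ^ 2) ≤ Qr h := by
  simp only [chk0, Bool.and_eq_true, decide_eq_true_eq] at h0
  obtain ⟨⟨⟨⟨⟨⟨⟨⟨⟨he, hn1⟩, hn2⟩, hDZ⟩, hDM⟩, hDQ⟩, hlq⟩, hlam⟩, hM1⟩, hMQ⟩ := h0
  have m1 := chkM1_spec d.e d.DM d.M1 0 hM1
  have mq := chkMQ_spec d.DQ d.MQ 0 hMQ
  have rDZ : (0 : ℝ) < (d.DZ : ℝ) := by exact_mod_cast hDZ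
  have rDM : (0 : ℝ) < (d.DM : ℝ) := by exact_mod_cast hDM
  have rDQ : (0 : ℝ) < (d.DQ : ℝ) := by exact_mod_cast hDQ
  have rlq : (0 : ℝ) < (d.lq : ℝ) := by exact_mod_cast hlq
  have rDS : (0 : ℝ) < (DS : ℝ) := by unfold DS; norm_num
  have rlam : (lamQ : ℝ) = (d.lp : ℝ) / (d.lq : ℝ) := by
    have h1 : (lamQ : ℝ) * (d.lq : ℝ) = (d.lp : ℝ) := by exact_mod_cast hlam
    field_simp
    linarith
  have cyf : ∀ k, Continuous (yf d k) := by
    intro k
    have := continuous_evi (d.Y.getD k [])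
    unfold yf
    fun_prop
  -- zf
  have ezf : ∀ k < d.n, ∀ x, zf d.e k x = x ^ d.e * evi (d.Z.getD k []) (x ^ 2) / (d.DZ : ℝ) := by
    intro k hk x
    have h1 := eqs_ev (d.DZ : ℚ) (zl d.e k) (d.Z.getD k []) (hZ k hk) (x ^ 2)
    unfold zf
    rw [← h1]
    push_cast
    field_simp
  refine r4 hR1 hTX hC hS hR3 hP d.e d.n he hn1 hn2 (yf d) cyf ?_ (fun k l => ((nent d k l : ℚ) : ℝ))
    ?_ ?_ h hh hpar
  · intro k hk w cw worth
    have hYk := hY k hk
    simp only [chkY, Bool.and_eq_true, decide_eq_true_eq] at hYk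
    obtain ⟨⟨⟨⟨hY1, _⟩, _⟩, _⟩, _⟩ := hYk
    have hdrop := eqi_eq _ _ hY1
    -- orthogonality to short lists
    have wl : ∀ (p : List ℤ) (j : ℕ), j + p.length ≤ d.n →
        ∫ x in (0 : ℝ)..1, w x * (x ^ (d.e + 2 * j) * evi p (x ^ 2)) = 0 := by
      intro p
      induction p with
      | nil => intro j _; simp
      | cons a p ih =>
          intro j hj
          simp only [List.length_cons] at hj
          have cp := continuous_evi p
          have e1 : (fun x => w x * (x ^ (d.e + 2 * j) * evi (a :: p) (x ^ 2))) =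
              fun x => (a : ℝ) * (w x * x ^ (d.e + 2 * j)) +
                w x * (x ^ (d.e + 2 * (j + 1)) * evi p (x ^ 2)) := by
            funext x; simp only [evi_cons]; ring
          rw [e1, intervalIntegral.integral_add (Continuous.intervalIntegrable (by fun_prop) _ _)
            (Continuous.intervalIntegrable (by fun_prop) _ _),
            intervalIntegral.integral_const_mul, worth j (by omega), ih (j + 1) (by omega)]
          ring
    have cY := continuous_evi ((d.Y.getD k []).take d.n)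
    have cZ := continuous_evi ((d.Z.getD k []).take d.n)
    have cD := continuous_evi ((d.Z.getD k []).drop d.n)
    have a1 := wl ((d.Y.getD k []).take d.n) 0 (by simp)
    have a2 := wl ((d.Z.getD k []).take d.n) 0 (by simp)
    simp only [mul_zero, add_zero] at a1 a2
    have e1 : (fun x => w x * yf d k x) = fun x =>
        1 / (d.DZ : ℝ) * (w x * (x ^ d.e * evi ((d.Y.getD k []).take d.n) (x ^ 2))) +
        1 / (d.DZ : ℝ) * (w x * (x ^ d.e * ((x ^ 2) ^ d.n *
          evi ((d.Z.getD k []).drop d.n) (x ^ 2)))) := by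
      funext x
      unfold yf
      rw [evi_take_drop d.n (d.Y.getD k []) (x ^ 2), hdrop]
      ring
    have e2 : (fun x => w x * zf d.e k x) = fun x =>
        1 / (d.DZ : ℝ) * (w x * (x ^ d.e * evi ((d.Z.getD k []).take d.n) (x ^ 2))) +
        1 / (d.DZ : ℝ) * (w x * (x ^ d.e * ((x ^ 2) ^ d.n *
          evi ((d.Z.getD k []).drop d.n) (x ^ 2)))) := by
      funext x
      rw [ezf k hk x, evi_take_drop d.n (d.Z.getD k []) (x ^ 2)]
      ring
    rw [e1, e2, intervalIntegral.integral_add, intervalIntegral.integral_add,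
      intervalIntegral.integral_const_mul, intervalIntegral.integral_const_mul,
      intervalIntegral.integral_const_mul, a1, a2] <;>
    exact Continuous.intervalIntegrable (by fun_prop) _ _
  · intro k hk l hl
    have hYk := hY k hk
    have hYl := hY l hl
    simp only [chkY, Bool.and_eq_true, decide_eq_true_eq] at hYk hYl
    obtain ⟨⟨⟨⟨_, _⟩, hk2⟩, hk3⟩, hk4⟩ := hYk
    obtain ⟨⟨⟨⟨_, _⟩, _⟩, _⟩, hl4⟩ := hYl
    have hBl := eqi_eq _ _ (hB l hl)
    have hGl := hG l hl
    have hGk := hG k hk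
    simp only [chkG, Bool.and_eq_true, decide_eq_true_eq] at hGl hGk
    obtain ⟨⟨hG1, hG2⟩, _⟩ := hGl
    have hG3 := hGk.2
    have hG1' := eqi_eq _ _ hG1
    -- the five integrals
    have c1 : Continuous (fun x : ℝ => x ^ (2 * d.e)) := by fun_prop
    have c2 : Continuous (fun x : ℝ => x ^ 2) := by fun_prop
    have i1 := doti_eq c1 c2 (d.Z.getD k []) (d.M1.drop l) l (m1.drop l) (by
      rw [List.length_drop]; omega)
    have j1 : ∫ x in (0 : ℝ)..1, zf d.e k x * ph d.e l x =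
        (doti (d.Z.getD k []) (d.M1.drop l) : ℝ) / ((d.DZ : ℝ) * (d.DM : ℝ)) := by
      have e1 : ∀ x : ℝ, zf d.e k x * ph d.e l x = 1 / (d.DZ : ℝ) *
          (x ^ (2 * d.e) * (x ^ 2) ^ l * evi (d.Z.getD k []) (x ^ 2)) := by
        intro x; rw [ezf k hk x]; unfold ph; ring
      simp only [e1]
      rw [intervalIntegral.integral_const_mul, i1]
      field_simp
    have i2 := doti_mlsi c1 c2 (d.Y.getD l []) (d.Y.getD k []) d.LY d.M1 0 m1 hk3 hl4
    have j2 : ∫ x in (0 : ℝ)..1, yf d k x * yf d l x =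
        (doti (d.Y.getD k []) (d.BY.getD l []) : ℝ) / ((d.DZ : ℝ) * (d.DZ : ℝ) * (d.DM : ℝ)) := by
      have e1 : ∀ x : ℝ, yf d k x * yf d l x = 1 / ((d.DZ : ℝ) * (d.DZ : ℝ)) *
          (x ^ (2 * d.e) * (x ^ 2) ^ 0 * (evi (d.Y.getD k []) (x ^ 2) *
            evi (d.Y.getD l []) (x ^ 2))) := by
        intro x; unfold yf; ring
      simp only [e1]
      rw [intervalIntegral.integral_const_mul, hBl, i2]
      field_simp
    have c3 : Continuous (fun _ : ℝ => (1 : ℝ)) := continuous_const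
    have c4 : Continuous (fun x : ℝ => x) := continuous_id
    have i3 := doti_mlsi c3 c4 (gl d l) (Sl (d.e + 2 * k)) 17 d.MQ 0 mq hG3 hG2
    have egl : ∀ x : ℝ, evi (gl d l) x = ((d.DZ : ℝ) * (DS : ℝ) * (d.lq : ℝ) ^ 2) *
        (-2 * (lamQ : ℝ) * ph d.e l x + 4 * (lamQ : ℝ) * yf d l x -
          2 * (lamQ : ℝ) ^ 2 * sf d.e l x) := by
      intro x
      unfold gl
      rw [evi_paddi, evi_paddi, evi_psmi, evi_psmi, evi_psmi, evi_replicate_one, evi_xli,
        evi_Sl _ (by omega), rlam]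
      unfold ph yf sf
      push_cast
      field_simp
      ring
    have cp := continuous_ph d.e l
    have cs := continuous_sf d.e l
    have cs' := continuous_sf d.e k
    have cy := cyf l
    have j3 : - 2 * (lamQ : ℝ) * (∫ x in (1 / 4 : ℝ)..1, sf d.e k x * ph d.e l x)
      + 4 * (lamQ : ℝ) * (∫ x in (1 / 4 : ℝ)..1, sf d.e k x * yf d l x)
      - 2 * (lamQ : ℝ) ^ 2 * (∫ x in (1 / 4 : ℝ)..1, sf d.e k x * sf d.e l x) =
        (doti (Sl (d.e + 2 * k)) (d.G.getD l []) : ℝ) /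
          ((DS : ℝ) * ((d.DZ : ℝ) * (DS : ℝ) * (d.lq : ℝ) ^ 2) * (d.DQ : ℝ)) := by
      rw [hG1', i3]
      have e1 : ∀ x : ℝ, (1 : ℝ) * x ^ 0 * (evi (Sl (d.e + 2 * k)) x * evi (gl d l) x) =
          ((DS : ℝ) * ((d.DZ : ℝ) * (DS : ℝ) * (d.lq : ℝ) ^ 2)) *
          (-2 * (lamQ : ℝ) * (sf d.e k x * ph d.e l x) + 4 * (lamQ : ℝ) * (sf d.e k x * yf d l x) -
            2 * (lamQ : ℝ) ^ 2 * (sf d.e k x * sf d.e l x)) := by
        intro x
        rw [egl x, evi_Sl _ (by omega)]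
        unfold sf
        ring
      simp only [e1]
      rw [intervalIntegral.integral_const_mul, intervalIntegral.integral_sub,
        intervalIntegral.integral_add, intervalIntegral.integral_const_mul,
        intervalIntegral.integral_const_mul, intervalIntegral.integral_const_mul]
      · field_simp
      all_goals exact Continuous.intervalIntegrable (by fun_prop) _ _
    have j4 : ∫ x in (0 : ℝ)..1, ph d.e k x * ph d.e l x = 1 / (2 * ((d.e + k + l : ℕ) : ℝ) + 1) := by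
      have e1 : ∀ x : ℝ, ph d.e k x * ph d.e l x = x ^ (2 * (d.e + k + l)) := by
        intro x; unfold ph; rw [← pow_add]; congr 1; ring
      simp only [e1]
      rw [integral_pow]
      push_cast
      simp
    rw [j1, j2, j4, ccq_eq d.e k he, ccq_eq d.e l he, ccq_eq d.e k he, ccq_eq d.e l he]
    have j3' := j3
    unfold nent
    push_cast at j3' ⊢
    rw [← j3']
    ring
  · intro c
    have h1 := hPSD d.n N L hL c
    refine le_trans h1 (le_of_eq ?_)
    have hsym : ∀ k < d.n, ∀ l < d.n, ((ent N k l : ℚ) : ℝ) + ((ent N l k : ℚ) : ℝ) =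
        ((nent d k l : ℚ) : ℝ) + ((nent d l k : ℚ) : ℝ) := by
      have h4 : ∀ k < d.n, ∀ l ≤ k, ((ent N k l : ℚ) : ℝ) + ((ent N l k : ℚ) : ℝ) =
        ((nent d k l : ℚ) : ℝ) + ((nent d l k : ℚ) : ℝ) := by
        intro k hk l hl
        have h2 := hN k hk
        unfold chkN at h2
        rw [List.all_eq_true] at h2
        have h3 := h2 l (List.mem_range.mpr (by omega))
        rw [decide_eq_true_eq] at h3
        exact_mod_cast congrArg (fun t : ℚ => (t : ℝ)) h3
      intro k hk l hl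
      rcases le_total l k with hlk | hlk
      · exact h4 k hk l hlk
      · have := h4 l hl k hlk
        linarith
    have hs : ∀ F : ℕ → ℕ → ℝ, ∑ k ∈ Finset.range d.n, ∑ l ∈ Finset.range d.n, F k l * (c k * c l) =
        1 / 2 * ∑ k ∈ Finset.range d.n, ∑ l ∈ Finset.range d.n, (F k l + F l k) * (c k * c l) := by
      intro F
      have h5 : ∑ k ∈ Finset.range d.n, ∑ l ∈ Finset.range d.n, (F k l + F l k) * (c k * c l) =
          (∑ k ∈ Finset.range d.n, ∑ l ∈ Finset.range d.n, F k l * (c k * c l)) +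
          ∑ k ∈ Finset.range d.n, ∑ l ∈ Finset.range d.n, F l k * (c k * c l) := by
        simp only [← Finset.sum_add_distrib]
        refine Finset.sum_congr rfl (fun k _ => Finset.sum_congr rfl (fun l _ => ?_))
        ring
      have h6 : ∑ k ∈ Finset.range d.n, ∑ l ∈ Finset.range d.n, F l k * (c k * c l) =
          ∑ k ∈ Finset.range d.n, ∑ l ∈ Finset.range d.n, F k l * (c k * c l) := by
        rw [Finset.sum_comm]
        refine Finset.sum_congr rfl (fun k _ => Finset.sum_congr rfl (fun l _ => ?_))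
        ring
      rw [h5, h6]; ring
    rw [hs (fun k l => ((ent N k l : ℚ) : ℝ)), hs (fun k l => ((nent d k l : ℚ) : ℝ))]
    congr 1
    refine Finset.sum_congr rfl (fun k hk => Finset.sum_congr rfl (fun l hl => ?_))
    rw [Finset.mem_range] at hk hl
    rw [hsym k hk l hl]

end Pool.Agent.W187.WP
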