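import Mathlib
import Pool.Agent.W187.WP.D0
import Pool.Agent.W187.WP.D1
import Pool.Agent.W8.WP.EF1
import Pool.Agent.W187.WP.EFb
import Pool.Agent.W120.WP.TX
import Pool.Agent.W449.WP.Tuck
import Pool.Agent.W120.WP.KB
import Pool.Agent.W100.WP.AR
import Pool.Agent.W120.WP.GA
import Pool.Agent.W120.WP.TRI
import Pool.Agent.W836.WP.EN
import Pool.Agent.W586.WP.Link
import Pool.Agent.W120.WP.N1
import Pool.Agent.W120.WP.N2
import Pool.Agent.W343.WP.N3
import Pool.Agent.W15.WP.QQ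
import Pool.Agent.W439.WP.R1
import Pool.Agent.W327.WP.R2S
import Pool.Agent.W638.WP.R3
import Pool.Agent.W15.WP.PSD
import Pool.Agent.W439.WP.R2C
import Pool.Agent.W439.WP.PROJ

/-!
# The main statements of the project, assembled
-/

open MeasureTheory Set

namespace Pool.Agent.W187.WP

theorem ef : S_EF := by
  intro g hg hc
  have h1 := Pool.Agent.W8.WP.ef1 g hg hc
  rwa [EFb.ef2 g hg hc] at h1

theorem core : S_CORE := by
  intro h hh hp
  have hR3 : S_R3 := Pool.Agent.W638.WP.r3 (Pool.Agent.W449.WP.tk Pool.Agent.W120.WP.tx)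
  rcases hp with hp | hp
  · exact cert Pool.Agent.W439.WP.r1 Pool.Agent.W120.WP.tx Pool.Agent.W439.WP.r2c
      Pool.Agent.W327.WP.r2s hR3 Pool.Agent.W439.WP.proj Pool.Agent.W15.WP.psd D0.d D0.N D0.L
      D0.c0 D0.cZ D0.cY D0.cB D0.cG D0.cN D0.cL h hh (by
        intro x; rw [hp x]; show h x = (-1) ^ 0 * h x; ring)
  · exact cert Pool.Agent.W439.WP.r1 Pool.Agent.W120.WP.tx Pool.Agent.W439.WP.r2c
      Pool.Agent.W327.WP.r2s hR3 Pool.Agent.W439.WP.proj Pool.Agent.W15.WP.psd D1.d D1.N D1.L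
      D1.c0 D1.cZ D1.cY D1.cB D1.cG D1.cN D1.cL h hh (by
        intro x; rw [hp x]; show -h x = (-1) ^ 1 * h x; ring)

theorem qqc : S_QQ := Pool.Agent.W15.WP.qq (Pool.Agent.W836.WP.en Pool.Agent.W120.WP.tri)
  (Pool.Agent.W120.WP.db Pool.Agent.W120.WP.tri) Pool.Agent.W120.WP.n1 (Pool.Agent.W120.WP.n2 Pool.Agent.W120.WP.kb)
  Pool.Agent.W343.WP.n3

theorem linkc : S_LINK := Pool.Agent.W586.WP.link Pool.Agent.W100.WP.ar

end Pool.Agent.W187.WP
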