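import Mathlib
import Pool.Agent.W187.WP.Core

/-!
# Weil positivity for functions supported in an interval of length `log 3`
-/

open Complex MeasureTheory Set
open scoped Convolution ComplexConjugate

namespace Pool.Agent.W187.WP

theorem lap_add {g1 g2 : ℝ → ℂ} (h1 : Continuous g1) (c1 : HasCompactSupport g1)
    (h2 : Continuous g2) (c2 : HasCompactSupport g2) (z : ℂ) :
    lap (fun y => g1 y + g2 y) z = lap g1 z + lap g2 z := by
  unfold lap
  rw [← integral_add]
  · congr 1; funext u; ring
  · exact (h1.mul (by fun_prop)).integrable_of_hasCompactSupport c1.mul_right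
  · exact (h2.mul (by fun_prop)).integrable_of_hasCompactSupport c2.mul_right

theorem WW_add {g1 g2 : ℝ → ℂ} (h1 : ContDiff ℝ 2 g1) (c1 : HasCompactSupport g1)
    (h2 : ContDiff ℝ 2 g2) (c2 : HasCompactSupport g2) :
    WW (fun y => g1 y + g2 y) = WW g1 + WW g2 := by
  have a1 := ef g1 h1 c1
  have a2 := ef g2 h2 c2
  have a3 := ef (fun y => g1 y + g2 y) (h1.add h2) (c1.add c2)
  have a4 := a1.add a2
  refine a3.unique ?_
  convert a4 using 1
  funext ρ
  rw [lap_add h1.continuous c1 h2.continuous c2]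
  ring

theorem WW_congr {g1 g2 : ℝ → ℂ} (h0 : g1 0 = g2 0) (h : ∀ v, g1 v + g1 (-v) = g2 v + g2 (-v)) :
    WW g1 = WW g2 := by
  unfold WW
  simp only [h, h0]

theorem support_ext {f : ℝ → ℝ} (hf : Continuous f) {b : ℝ} (hb : 0 < b)
    (hs : ∀ x, b < |x| → f x = 0) (x : ℝ) (hx : b ≤ |x|) : f x = 0 := by
  have hcl : IsClosed {x : ℝ | f x = 0} := isClosed_eq hf continuous_const
  have h1 : {x : ℝ | b < |x|} ⊆ {x : ℝ | f x = 0} := fun x hx => hs x hx
  have h2 := hcl.closure_subset_iff.mpr h1
  apply h2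
  rcases le_or_gt 0 x with h | h
  · rw [abs_of_nonneg h] at hx
    have h3 : Ioi b ⊆ {x : ℝ | b < |x|} := fun y hy => by
      have : 0 < y := lt_trans hb hy
      simpa [abs_of_pos this] using hy
    have h4 := closure_mono h3
    rw [closure_Ioi] at h4
    exact h4 hx
  · rw [abs_of_neg h] at hx
    have h3 : Iio (-b) ⊆ {x : ℝ | b < |x|} := fun y hy => by
      have h5 : y < -b := hy
      have : y < 0 := by linarith
      show b < |y|
      rw [abs_of_neg this]; linarith
    have h4 := closure_mono h3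
    rw [closure_Iio] at h4
    exact h4 (by show x ≤ -b; linarith)

theorem log3_lt : Real.log 3 / 2 < 4 / 5 * Real.log 2 := by
  have h : 5 * Real.log 3 < 8 * Real.log 2 := by
    rw [← Real.log_rpow (by norm_num), ← Real.log_rpow (by norm_num)]
    apply Real.log_lt_log (by positivity)
    norm_num
  linarith

theorem real_parity (f : ℝ → ℝ) (hf : ContDiff ℝ 2 f)
    (hs : ∀ x, Real.log 3 / 2 < |x| → f x = 0)
    (hp : (∀ x, f (-x) = f x) ∨ (∀ x, f (-x) = -f x)) :
    ∃ W : ℝ, WW (fun y => ((GG f y : ℝ) : ℂ)) = (W : ℂ) ∧ 24 / 10 ^ 9 * (∫ x, f x ^ 2) ≤ W := by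
  have hl3 : 0 < Real.log 3 := Real.log_pos (by norm_num)
  have hl2 : 0 < Real.log 2 := Real.log_pos (by norm_num)
  set a : ℝ := 4 / 5 * Real.log 2 with ha
  have ha0 : 0 < a := by positivity
  have hs' := support_ext hf.continuous (by positivity) hs
  have hsa : ∀ x, a ≤ |x| → f x = 0 := fun x hx => hs x (lt_of_lt_of_le log3_lt hx)
  have hG : ∀ y, Real.log 3 ≤ y → GG f y = 0 := fun y hy =>
    Pool.Agent.W586.WP.GG_zero hs' y (by linarith)
  have hL := linkc f a ha0 hf hsa hG
  refine ⟨_, hL, ?_⟩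
  set h : ℝ → ℝ := fun x => f (a * x) with hh
  have hC : ContDiff ℝ 2 h := hf.comp (contDiff_const.mul contDiff_id)
  have h0 : ∀ x, 1 ≤ |x| → h x = 0 := by
    intro x hx
    apply hsa
    rw [abs_mul, abs_of_pos ha0]
    nlinarith
  have hq := qqc h hC h0
  have hc := core h (hC.of_le (by norm_num)) (by
    rcases hp with hp | hp
    · left; intro x; simp only [hh]; rw [mul_neg, hp]
    · right; intro x; simp only [hh]; rw [mul_neg, hp])
  have hI : a * (∫ x in (-1 : ℝ)..1, h x ^ 2) = ∫ x, f x ^ 2 := by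
    have h1 := intervalIntegral.mul_integral_comp_mul_left (a := -1) (b := 1)
      (f := fun x => f x ^ 2) a
    have e1 : (∫ x in (-1 : ℝ)..1, h x ^ 2) = ∫ x in (-1 : ℝ)..1, f (a * x) ^ 2 := rfl
    rw [e1, h1, mul_neg, mul_one, intervalIntegral.integral_of_le (by linarith),
      setIntegral_eq_integral_of_forall_compl_eq_zero]
    intro x hx
    rw [hsa x, zero_pow (by norm_num)]
    by_contra hlt
    push Not at hlt
    rw [abs_lt] at hlt
    exact hx ⟨hlt.1, hlt.2.le⟩
  rw [← hI]
  have : 24 / 10 ^ 9 * (∫ x in (-1 : ℝ)..1, h x ^ 2) ≤ QQ a h := by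
    refine le_trans ?_ hq
    linarith
  nlinarith

theorem real_case (f : ℝ → ℝ) (hf : ContDiff ℝ 2 f)
    (hs : ∀ x, Real.log 3 / 2 < |x| → f x = 0) :
    ∃ W : ℝ, WW (fun y => ((GG f y : ℝ) : ℂ)) = (W : ℂ) ∧ 24 / 10 ^ 9 * (∫ x, f x ^ 2) ≤ W := by
  have hl3 : 0 < Real.log 3 := Real.log_pos (by norm_num)
  set p : ℝ → ℝ := fun x => (f x + f (-x)) / 2 with hp
  set q : ℝ → ℝ := fun x => (f x - f (-x)) / 2 with hq
  have fneg : ContDiff ℝ 2 (fun x => f (-x)) := hf.comp contDiff_neg
  have hpC : ContDiff ℝ 2 p := (hf.add fneg).div_const 2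
  have hqC : ContDiff ℝ 2 q := (hf.sub fneg).div_const 2
  have hps : ∀ x, Real.log 3 / 2 < |x| → p x = 0 := by
    intro x hx
    simp only [hp]
    rw [hs x hx, hs (-x) (by rwa [abs_neg])]; ring
  have hqs : ∀ x, Real.log 3 / 2 < |x| → q x = 0 := by
    intro x hx
    simp only [hq]
    rw [hs x hx, hs (-x) (by rwa [abs_neg])]; ring
  obtain ⟨W1, hW1, hI1⟩ := real_parity p hpC hps (Or.inl (by
    intro x; simp only [hp, neg_neg]; ring))
  obtain ⟨W2, hW2, hI2⟩ := real_parity q hqC hqs (Or.inr (by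
    intro x; simp only [hq, neg_neg]; ring))
  have hps' := support_ext hpC.continuous (by positivity) hps
  have hqs' := support_ext hqC.continuous (by positivity) hqs
  have hfs' := support_ext hf.continuous (by positivity) hs
  have cp := Pool.Agent.W586.WP.hcs hps'
  have cq := Pool.Agent.W586.WP.hcs hqs'
  have cpc : HasCompactSupport (fun y => ((GG p y : ℝ) : ℂ)) := by
    refine HasCompactSupport.intro (isCompact_Icc (a := -Real.log 3) (b := Real.log 3))
      fun x hx => ?_
    have : Real.log 3 ≤ x ∨ Real.log 3 ≤ -x := by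
      by_contra hlt
      push Not at hlt
      exact hx ⟨by linarith [hlt.2], hlt.1.le⟩
    rcases this with h | h
    · rw [Pool.Agent.W586.WP.GG_zero hps' x (by linarith)]; simp
    · rw [← Pool.Agent.W586.WP.GG_neg, Pool.Agent.W586.WP.GG_zero hps' (-x) (by linarith)]; simp
  have cqc : HasCompactSupport (fun y => ((GG q y : ℝ) : ℂ)) := by
    refine HasCompactSupport.intro (isCompact_Icc (a := -Real.log 3) (b := Real.log 3))
      fun x hx => ?_
    have : Real.log 3 ≤ x ∨ Real.log 3 ≤ -x := by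
      by_contra hlt
      push Not at hlt
      exact hx ⟨by linarith [hlt.2], hlt.1.le⟩
    rcases this with h | h
    · rw [Pool.Agent.W586.WP.GG_zero hqs' x (by linarith)]; simp
    · rw [← Pool.Agent.W586.WP.GG_neg, Pool.Agent.W586.WP.GG_zero hqs' (-x) (by linarith)]; simp
  have cf := Pool.Agent.W586.WP.hcs hfs'
  have fc := hf.continuous
  have pc := hpC.continuous
  have qc := hqC.continuous
  have hfpq : ∀ x, f x = p x + q x := by intro x; simp only [hp, hq]; ring
  have intp : ∀ (u v : ℝ → ℝ), Continuous u → Continuous v → HasCompactSupport v → ∀ y : ℝ,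
      Integrable (fun x => u (x + y) * v x) := by
    intro u v hu hv hcv y
    exact ((hu.comp (by fun_prop)).mul hv).integrable_of_hasCompactSupport hcv.mul_left
  have hGG : ∀ y, GG f y = GG p y + GG q y := by
    intro y
    have hcross : ∫ x : ℝ, p (x + y) * q x = -∫ x : ℝ, q (x + y) * p x := by
      have h1 : ∫ x : ℝ, p (x + y) * q x = ∫ x : ℝ, p (-x) * q (-x - y) := by
        rw [← integral_neg_eq_self (fun x : ℝ => p (x + y) * q x),
          ← integral_add_right_eq_self (μ := volume) (fun x : ℝ => p (-x + y) * q (-x)) y]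
        congr 1; funext x
        have e1 : -(x + y) + y = -x := by ring
        have e2 : -(x + y) = -x - y := by ring
        rw [e1, e2]
      rw [h1, ← integral_neg]
      congr 1; funext x
      have e3 : p (-x) = p x := by simp only [hp, neg_neg]; ring
      have e4 : q (-x - y) = -q (x + y) := by
        simp only [hq]
        rw [show -(-x - y) = x + y by ring, show -x - y = -(x + y) by ring]; ring
      rw [e3, e4]; ring
    unfold GG
    have e1 : (fun x => f (x + y) * f x) = fun x => p (x + y) * p x + q (x + y) * q x +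
        (p (x + y) * q x + q (x + y) * p x) := by
      funext x; rw [hfpq (x + y), hfpq x]; ring
    have i1 := intp p p pc pc cp y
    have i2 := intp q q qc qc cq y
    have i3 := intp p q pc qc cq y
    have i4 := intp q p qc pc cp y
    rw [e1, integral_add (f := fun x => p (x + y) * p x + q (x + y) * q x)
      (g := fun x => p (x + y) * q x + q (x + y) * p x) (i1.add i2) (i3.add i4),
      integral_add i1 i2, integral_add i3 i4, hcross]
    ring
  refine ⟨W1 + W2, ?_, ?_⟩
  · have e1 : (fun y => ((GG f y : ℝ) : ℂ)) = fun y => ((GG p y : ℝ) : ℂ) + ((GG q y : ℝ) : ℂ) := by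
      funext y; rw [hGG y]; push_cast; rfl
    rw [e1, WW_add _ cpc _ cqc, hW1, hW2]
    · push_cast; rfl
    · exact ofRealCLM.contDiff.comp (Pool.Agent.W586.WP.GG_contDiff hpC hps')
    · exact ofRealCLM.contDiff.comp (Pool.Agent.W586.WP.GG_contDiff hqC hqs')
  · have h0 : ∀ u : ℝ → ℝ, ∫ x, u x ^ 2 = GG u 0 := by
      intro u; unfold GG; congr 1; funext x; rw [add_zero]; ring
    rw [h0 f, hGG 0, ← h0 p, ← h0 q]
    linarith

/-- cross-correlation of complex functions -/
noncomputable def Co (p q : ℝ → ℂ) (y : ℝ) : ℂ := ∫ x : ℝ, p (x + y) * q x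

theorem Co_contDiff {p q : ℝ → ℂ} (hp : ContDiff ℝ 2 p) (cp : HasCompactSupport p)
    (hq : Continuous q) : ContDiff ℝ 2 (Co p q) := by
  have e : Co p q = (fun t => q (-t)) ⋆[ContinuousLinearMap.mul ℝ ℂ, volume] p := by
    ext s
    rw [convolution_def]
    unfold Co
    rw [← integral_neg_eq_self (fun x => (ContinuousLinearMap.mul ℝ ℂ) (q (-x)) (p (s - x)))]
    congr 1
    ext x
    simp only [ContinuousLinearMap.mul_apply', neg_neg, sub_neg_eq_add]
    rw [add_comm s x]
    ring
  rw [e]
  refine HasCompactSupport.contDiff_convolution_right _ cp ?_ hp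
  exact (hq.comp continuous_neg).locallyIntegrable

theorem Co_compact {p q : ℝ → ℂ} {b : ℝ} (hp : ∀ x, b < |x| → p x = 0)
    (hq : ∀ x, b < |x| → q x = 0) : HasCompactSupport (Co p q) := by
  refine HasCompactSupport.intro (isCompact_Icc (a := -(2 * b)) (b := 2 * b)) fun y hy => ?_
  unfold Co
  have : (fun x : ℝ => p (x + y) * q x) = fun _ => 0 := by
    funext x
    by_cases hx : b < |x|
    · rw [hq x hx, mul_zero]
    · push Not at hx
      rw [hp (x + y), zero_mul]
      by_contra hlt
      push Not at hlt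
      rw [abs_le] at hlt hx
      exact hy ⟨by linarith [hlt.1, hx.2], by linarith [hlt.2, hx.1]⟩
  rw [this, integral_zero]

theorem lap_Co {p q : ℝ → ℂ} (hp : Continuous p) (cp : HasCompactSupport p)
    (hq : Continuous q) (cq : HasCompactSupport q) (z : ℂ) :
    lap (Co p q) z = lap p z * lap q (-z) := by
  unfold lap Co
  have h1 : ∀ u : ℝ, (∫ x : ℝ, p (x + u) * q x) * cexp (z * u) =
      ∫ x : ℝ, (p (x + u) * cexp (z * ((x + u : ℝ) : ℂ))) * (q x * cexp (-z * x)) := by
    intro u
    rw [← integral_mul_const]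
    congr 1; funext x
    rw [show (p (x + u) * cexp (z * ((x + u : ℝ) : ℂ))) * (q x * cexp (-z * x)) =
      p (x + u) * q x * (cexp (z * ((x + u : ℝ) : ℂ)) * cexp (-z * x)) by ring, ← Complex.exp_add]
    congr 2
    push_cast; ring
  simp only [h1]
  set P : ℝ → ℂ := fun t => p t * cexp (z * t) with hP
  set Q : ℝ → ℂ := fun t => q t * cexp (-z * t) with hQ
  have cP : Continuous P := hp.mul (by fun_prop)
  have cQ : Continuous Q := hq.mul (by fun_prop)
  have kP : HasCompactSupport P := cp.mul_right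
  have kQ : HasCompactSupport Q := cq.mul_right
  have iP : Integrable P := cP.integrable_of_hasCompactSupport kP
  have iQ : Integrable Q := cQ.integrable_of_hasCompactSupport kQ
  have h2 : (fun u : ℝ => ∫ x : ℝ, P (x + u) * Q x) = fun u : ℝ => ∫ x : ℝ, P (x + u) * Q x := rfl
  have e3 : ∫ u : ℝ, ∫ x : ℝ, (p (x + u) * cexp (z * ((x + u : ℝ) : ℂ))) * (q x * cexp (-z * x)) =
      ∫ u : ℝ, ∫ x : ℝ, P (x + u) * Q x := rfl
  rw [e3, integral_integral_swap]
  · have h4 : ∀ x : ℝ, ∫ u : ℝ, P (x + u) * Q x = (∫ u : ℝ, P u) * Q x := by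
      intro x
      rw [integral_mul_const]
      congr 1
      exact integral_add_left_eq_self P x
    simp only [h4]
    rw [integral_const_mul]
  · -- integrability on the product
    have hint : Integrable (fun pr : ℝ × ℝ => P pr.1 * Q pr.2) (volume.prod volume) :=
      iP.mul_prod iQ
    have hmp : MeasurePreserving (fun pr : ℝ × ℝ => (pr.2 + pr.1, pr.2))
        ((volume : Measure ℝ).prod volume) (volume.prod volume) := by
      have := measurePreserving_add_prod (μ := (volume : Measure ℝ)) (ν := (volume : Measure ℝ))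
      convert this using 2
      rw [add_comm]
    have := hmp.integrable_comp_of_integrable hint
    exact this

theorem lap_conj {f : ℝ → ℂ} (z : ℂ) :
    lap (fun x => conj (f x)) (-z) = conj (lap f (-conj z)) := by
  unfold lap
  rw [← integral_conj]
  congr 1; funext x
  rw [map_mul, ← Complex.exp_conj]
  congr 2
  simp

theorem final (f : ℝ → ℂ) (hf : ContDiff ℝ 2 f) (c : ℝ)
    (hs : ∀ x, Real.log 3 / 2 < |x - c| → f x = 0) :
    ∃ W : ℝ, HasSum (fun ρ : Zr => (mult ρ : ℂ) *
      (lap f ((ρ : ℂ) - 1 / 2) * conj (lap f (1 / 2 - conj (ρ : ℂ))))) (W : ℂ) ∧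
      2 / 10 ^ 8 * (∫ x, ‖f x‖ ^ 2) ≤ W := by
  -- translate to the origin
  set g : ℝ → ℂ := fun x => f (x + c) with hg
  have hgC : ContDiff ℝ 2 g := hf.comp (contDiff_id.add contDiff_const)
  have hgs : ∀ x, Real.log 3 / 2 < |x| → g x = 0 := by
    intro x hx
    apply hs
    rwa [add_sub_cancel_right]
  have hlap : ∀ z, lap f z = cexp (z * c) * lap g z := by
    intro z
    unfold lap
    rw [← integral_add_right_eq_self (μ := volume) (fun u : ℝ => f u * cexp (z * u)) c,
      ← integral_const_mul]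
    congr 1; funext u
    simp only [hg]
    push_cast
    rw [mul_add, Complex.exp_add]; ring
  have hprod : ∀ z, lap f z * conj (lap f (-conj z)) = lap g z * conj (lap g (-conj z)) := by
    intro z
    rw [hlap z, hlap (-conj z), map_mul, ← Complex.exp_conj]
    rw [show conj (-conj z * (c : ℂ)) = -(z * (c : ℂ)) by simp]
    rw [show cexp (z * ↑c) * lap g z * (cexp (-(z * ↑c)) * conj (lap g (-conj z))) =
      (cexp (z * ↑c) * cexp (-(z * ↑c))) * (lap g z * conj (lap g (-conj z))) by ring,
      ← Complex.exp_add, add_neg_cancel, Complex.exp_zero, one_mul]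
  have hnorm : ∫ x, ‖f x‖ ^ 2 = ∫ x, ‖g x‖ ^ 2 :=
    (integral_add_right_eq_self (μ := volume) (fun u : ℝ => ‖f u‖ ^ 2) c).symm
  -- real and imaginary parts
  set g1 : ℝ → ℝ := fun x => (g x).re with hg1
  set g2 : ℝ → ℝ := fun x => (g x).im with hg2
  have hg1C : ContDiff ℝ 2 g1 := Complex.reCLM.contDiff.comp hgC
  have hg2C : ContDiff ℝ 2 g2 := Complex.imCLM.contDiff.comp hgC
  have hg1s : ∀ x, Real.log 3 / 2 < |x| → g1 x = 0 := by
    intro x hx; simp only [hg1]; rw [hgs x hx]; rfl
  have hg2s : ∀ x, Real.log 3 / 2 < |x| → g2 x = 0 := by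
    intro x hx; simp only [hg2]; rw [hgs x hx]; rfl
  obtain ⟨W1, hW1, hI1⟩ := real_case g1 hg1C hg1s
  obtain ⟨W2, hW2, hI2⟩ := real_case g2 hg2C hg2s
  have hl3 : 0 < Real.log 3 := Real.log_pos (by norm_num)
  have hcg : HasCompactSupport g := by
    refine HasCompactSupport.intro (isCompact_Icc (a := -(Real.log 3 / 2)) (b := Real.log 3 / 2))
      fun x hx => hgs x ?_
    by_contra h
    push Not at h
    exact hx (abs_le.1 h)
  have gc := hgC.continuous
  have gcc : Continuous (fun x => conj (g x)) := Complex.continuous_conj.comp gc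
  have hcgc : HasCompactSupport (fun x => conj (g x)) := by
    refine HasCompactSupport.intro (isCompact_Icc (a := -(Real.log 3 / 2)) (b := Real.log 3 / 2))
      fun x hx => ?_
    rw [hgs x ?_, map_zero]
    by_contra h
    push Not at h
    exact hx (abs_le.1 h)
  set G : ℝ → ℂ := Co g (fun x => conj (g x)) with hG
  have hGC : ContDiff ℝ 2 G := Co_contDiff hgC hcg gcc
  have hGc : HasCompactSupport G := Co_compact hgs (fun x hx => by rw [hgs x hx, map_zero])
  have hEF := ef G hGC hGc
  have hs1 := support_ext hg1C.continuous (by positivity) hg1s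
  have hs2 := support_ext hg2C.continuous (by positivity) hg2s
  have g1c := hg1C.continuous
  have g2c := hg2C.continuous
  have k1 := Pool.Agent.W586.WP.hcs hs1
  have k2 := Pool.Agent.W586.WP.hcs hs2
  have intp : ∀ (u v : ℝ → ℝ), Continuous u → Continuous v → HasCompactSupport v → ∀ y : ℝ,
      Integrable (fun x => u (x + y) * v x) := by
    intro u v hu hv hcv y
    exact ((hu.comp (by fun_prop)).mul hv).integrable_of_hasCompactSupport hcv.mul_left
  -- autocorrelation of g
  set O : ℝ → ℝ := fun y => (∫ x : ℝ, g2 (x + y) * g1 x) - ∫ x : ℝ, g1 (x + y) * g2 x with hO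
  have hGval : ∀ y, G y = ((GG g1 y : ℝ) : ℂ) + ((GG g2 y : ℝ) : ℂ) + ((O y : ℝ) : ℂ) * I := by
    intro y
    have i1 := intp g1 g1 g1c g1c k1 y
    have i2 := intp g2 g2 g2c g2c k2 y
    have i3 := intp g2 g1 g2c g1c k1 y
    have i4 := intp g1 g2 g1c g2c k2 y
    have e1 : (fun x : ℝ => g (x + y) * conj (g x)) = fun x : ℝ =>
        ((g1 (x + y) * g1 x + g2 (x + y) * g2 x : ℝ) : ℂ) +
        ((g2 (x + y) * g1 x - g1 (x + y) * g2 x : ℝ) : ℂ) * I := by
      funext x
      apply Complex.ext
      · simp [hg1, hg2]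
      · simp [hg1, hg2]; ring
    simp only [hG, Co]
    rw [e1, integral_add, integral_mul_const, integral_complex_ofReal, integral_complex_ofReal,
      integral_add i1 i2, integral_sub i3 i4]
    · simp only [hO, GG]; push_cast; ring
    · exact (i1.add i2).ofReal
    · exact ((i3.sub i4).ofReal).mul_const I
  have hOneg : ∀ y, O (-y) = -O y := by
    intro y
    have h1 : ∀ u v : ℝ → ℝ, ∫ x : ℝ, u (x + -y) * v x = ∫ x : ℝ, v (x + y) * u x := by
      intro u v
      rw [← integral_add_right_eq_self (μ := volume) (fun x => u (x + -y) * v x) y]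
      congr 1; funext x
      simp only [add_neg_cancel_right]
      ring
    simp only [hO]
    rw [h1 g2 g1, h1 g1 g2]
    ring
  have hO0 : O 0 = 0 := by
    have := hOneg 0
    rw [neg_zero] at this
    linarith
  have cGG : ∀ u : ℝ → ℝ, (∀ x, Real.log 3 / 2 ≤ |x| → u x = 0) →
      HasCompactSupport (fun y => ((GG u y : ℝ) : ℂ)) := by
    intro u hu
    refine HasCompactSupport.intro (isCompact_Icc (a := -Real.log 3) (b := Real.log 3))
      fun x hx => ?_
    have : Real.log 3 ≤ x ∨ Real.log 3 ≤ -x := by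
      by_contra hlt
      push Not at hlt
      exact hx ⟨by linarith [hlt.2], hlt.1.le⟩
    rcases this with h | h
    · rw [Pool.Agent.W586.WP.GG_zero hu x (by linarith)]; simp
    · rw [← Pool.Agent.W586.WP.GG_neg, Pool.Agent.W586.WP.GG_zero hu (-x) (by linarith)]; simp
  have hWG : WW G = ((W1 + W2 : ℝ) : ℂ) := by
    have h1 : WW G = WW (fun y => ((GG g1 y : ℝ) : ℂ) + ((GG g2 y : ℝ) : ℂ)) := by
      apply WW_congr
      · rw [hGval 0, hO0]; simp
      · intro v
        rw [hGval v, hGval (-v), hOneg v]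
        push_cast
        ring
    rw [h1, WW_add _ (cGG g1 hs1) _ (cGG g2 hs2), hW1, hW2]
    · push_cast; rfl
    · exact ofRealCLM.contDiff.comp (Pool.Agent.W586.WP.GG_contDiff hg1C hs1)
    · exact ofRealCLM.contDiff.comp (Pool.Agent.W586.WP.GG_contDiff hg2C hs2)
  refine ⟨W1 + W2, ?_, ?_⟩
  · rw [← hWG]
    convert hEF using 2 with ρ
    congr 1
    have h3 := hprod ((ρ : ℂ) - 1 / 2)
    have h4 : -conj ((ρ : ℂ) - 1 / 2) = 1 / 2 - conj (ρ : ℂ) := by
      rw [map_sub, map_div₀, map_one, map_ofNat]; ring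
    rw [h4] at h3
    rw [h3, hG, lap_Co gc hcg gcc hcgc, lap_conj, h4]
  · have h5 : ∫ x, ‖g x‖ ^ 2 = (∫ x, g1 x ^ 2) + ∫ x, g2 x ^ 2 := by
      rw [← integral_add]
      · congr 1; funext x
        rw [← Complex.normSq_eq_norm_sq, Complex.normSq_apply]
        simp only [hg1, hg2]; ring
      · have := intp g1 g1 g1c g1c k1 0
        simp only [add_zero] at this
        refine this.congr (Filter.Eventually.of_forall (fun x => ?_))
        simp only; ring
      · have := intp g2 g2 g2c g2c k2 0
        simp only [add_zero] at this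
        refine this.congr (Filter.Eventually.of_forall (fun x => ?_))
        simp only; ring
    have p1 : 0 ≤ ∫ x, g1 x ^ 2 := integral_nonneg (fun x => sq_nonneg _)
    have p2 : 0 ≤ ∫ x, g2 x ^ 2 := integral_nonneg (fun x => sq_nonneg _)
    rw [hnorm, h5]
    linarith

end Pool.Agent.W187.WP
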